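-- Proof of the frozen statement S10356: a 21-element poset with the fixed point property which is not unicoherent.
import Pool.Statements.S10356

set_option autoImplicit false
open Pool Pool.MP_9adbbf_co

namespace Pool.Agent.S10356

/-! ## The poset

The face poset of a Moebius band, triangulated with the vertices `c0 c1 d0 d1 x y` (numbered `0..5`)
and the seven triangles `c0 d0 x`, `c1 d1 x`, `c0 c1 x`, `d0 d1 x`, `c1 d0 y`, `c0 c1 y`, `d0 d1 y`
(numbered `14..20`), with the five boundary edges left out.  The eight interior edges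
`c0c1, d0d1, c0x, c1x, d0x, d1x, c1y, d0y` are numbered `6..13`. -/

/-- The up-set of `i`, as a bit mask. -/
def up (i : ℕ) : ℕ :=
  [606529, 889410, 1467524, 1214600, 249616, 1847328, 589888, 1179776, 82176, 98816, 148480,
    165888, 790528, 1318912, 16384, 32768, 65536, 131072, 262144, 524288, 1048576].getD i 0

/-- The down-set of `i`, as a bit mask. -/
def dn (i : ℕ) : ℕ :=
  [1, 2, 4, 8, 16, 32, 67, 140, 273, 530, 1044, 2072, 4130, 8228, 17685, 35354, 66387, 134300,
    274470, 528483, 1056940].getD i 0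

/-- The 21-element type carrying the order. -/
def P : Type := Fin 21

instance : Fintype P := inferInstanceAs (Fintype (Fin 21))
instance : DecidableEq P := inferInstanceAs (DecidableEq (Fin 21))

/-- The underlying number. -/
def P.v (a : P) : ℕ := Fin.val (n := 21) a

/-- Element number `i`. -/
def pt (i : Fin 21) : P := i

theorem P.v_lt (a : P) : a.v < 21 := Fin.isLt (n := 21) a

theorem P.ext {a b : P} (h : a.v = b.v) : a = b := Fin.ext (n := 21) h

theorem up_refl : ∀ a : Fin 21, (up a.val).testBit a.val = true := by decide +kernel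

theorem up_trans : ∀ a b c : Fin 21, (up a.val).testBit b.val = true →
    (up b.val).testBit c.val = true → (up a.val).testBit c.val = true := by decide +kernel

theorem up_antisymm : ∀ a b : Fin 21, (up a.val).testBit b.val = true →
    (up b.val).testBit a.val = true → a.val = b.val := by decide +kernel

theorem up_dn : ∀ a b : Fin 21, (up a.val).testBit b.val = true →
    (dn b.val).testBit a.val = true := by decide +kernel

instance : PartialOrder P where
  le a b := (up a.v).testBit b.v = true
  le_refl a := up_refl a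
  le_trans a b c := up_trans a b c
  le_antisymm a b h1 h2 := P.ext (up_antisymm a b h1 h2)

theorem P.le_def {a b : P} : a ≤ b ↔ (up a.v).testBit b.v = true := Iff.rfl

instance : DecidableRel (fun a b : P => a ≤ b) := fun a b =>
  inferInstanceAs (Decidable ((up a.v).testBit b.v = true))

/-! ## A checked search showing that there is no fixed-point-free order-preserving self-map

A state of the search is a list `D` of bit masks: the bits of `D.getD i 0` are the values still allowed
for the image of `i`. -/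

/-- The union of the masks `t v` over the bits `v` of `m`. -/
def clo (t : ℕ → ℕ) (m : ℕ) : ℕ :=
  (List.range 21).foldr (fun v acc => if m.testBit v then t v ||| acc else acc) 0

theorem clo_aux (t : ℕ → ℕ) (m v w : ℕ) (hm : m.testBit v = true) (hw : (t v).testBit w = true) :
    ∀ l : List ℕ, v ∈ l →
      (l.foldr (fun v acc => if m.testBit v then t v ||| acc else acc) 0).testBit w = true := by
  intro l
  induction l with
  | nil => intro h; simp at h
  | cons a l ih =>
    intro h
    rcases List.mem_cons.1 h with h | h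
    · subst h
      simp [hm, hw]
    · have := ih h
      by_cases ha : m.testBit a = true
      · simp [ha, this]
      · simp only [Bool.not_eq_true] at ha
        simp only [List.foldr_cons, ha]
        simpa using this

theorem clo_spec (t : ℕ → ℕ) (m v w : ℕ) (hv : v < 21) (hm : m.testBit v = true)
    (hw : (t v).testBit w = true) : (clo t m).testBit w = true :=
  clo_aux t m v w hm hw _ (List.mem_range.2 hv)

/-- Certificates for the search. -/
inductive Cert : Type
  | fail (i : ℕ) : Cert
  | step (i j : ℕ) (c : Cert) : Cert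
  | branch (i v : ℕ) (c₁ c₂ : Cert) : Cert

/-- Use the comparability of `i` and `j` to shrink the allowed values at `j`. -/
def revise (i j : ℕ) (D : List ℕ) : List ℕ :=
  if (up i).testBit j then D.set j (D.getD j 0 &&& clo up (D.getD i 0))
  else if (up j).testBit i then D.set j (D.getD j 0 &&& clo dn (D.getD i 0))
  else D

/-- The certificate checker. -/
def check : Cert → List ℕ → Bool
  | .fail i, D => (i < 21) && (D.getD i 0 == 0)
  | .step i j c, D => (i < 21) && (j < 21) && check c (revise i j D)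
  | .branch i v c₁ c₂, D =>
      check c₁ (D.set i (D.getD i 0 &&& 2 ^ v)) &&
        check c₂ (D.set i (D.getD i 0 &&& ((2 ^ 21 - 1) ^^^ 2 ^ v)))

/-- The values of `F` are allowed by `D`. -/
def Sat (F : ℕ → ℕ) (D : List ℕ) : Prop :=
  ∀ i, i < 21 → (D.getD i 0).testBit (F i) = true

theorem Sat.set {F : ℕ → ℕ} {D : List ℕ} (h : Sat F D) (j m : ℕ)
    (hm : j < 21 → m.testBit (F j) = true) : Sat F (D.set j m) := by
  intro i hi
  have h1 := h i hi
  by_cases hij : j = i
  · subst hij
    by_cases hl : j < D.length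
    · simp only [List.getD_eq_getElem?_getD, List.getElem?_set_self hl, Option.getD_some]
      exact hm hi
    · simp only [List.getD_eq_getElem?_getD] at h1
      rw [List.getElem?_eq_none (by omega)] at h1
      simp at h1
  · simp only [List.getD_eq_getElem?_getD, List.getElem?_set_ne hij] at h1 ⊢
    exact h1

theorem Sat.revise {F : ℕ → ℕ} {D : List ℕ} (h : Sat F D) (hF : ∀ i, i < 21 → F i < 21)
    (hmono : ∀ i j, i < 21 → j < 21 → (up i).testBit j = true → (up (F i)).testBit (F j) = true)
    (i j : ℕ) (hi : i < 21) (hj : j < 21) : Sat F (revise i j D) := by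
  unfold Pool.Agent.S10356.revise
  split_ifs with h1 h2
  · apply h.set
    intro _
    rw [Nat.testBit_land, h j hj, Bool.true_and]
    exact clo_spec up _ (F i) (F j) (hF i hi) (h i hi) (hmono i j hi hj h1)
  · apply h.set
    intro _
    rw [Nat.testBit_land, h j hj, Bool.true_and]
    exact clo_spec dn _ (F i) (F j) (hF i hi) (h i hi)
      (up_dn ⟨F j, hF j hj⟩ ⟨F i, hF i hi⟩ (hmono j i hj hi h2))
  · exact h

theorem check_sound {F : ℕ → ℕ} (hF : ∀ i, i < 21 → F i < 21)
    (hmono : ∀ i j, i < 21 → j < 21 → (up i).testBit j = true → (up (F i)).testBit (F j) = true) :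
    ∀ (c : Cert) (D : List ℕ), check c D = true → ¬ Sat F D := by
  intro c
  induction c with
  | fail i =>
    intro D hc hs
    simp only [check, Bool.and_eq_true, decide_eq_true_eq, beq_iff_eq] at hc
    have := hs i hc.1
    rw [hc.2] at this
    simp at this
  | step i j c ih =>
    intro D hc hs
    simp only [check, Bool.and_eq_true, decide_eq_true_eq] at hc
    exact ih _ hc.2 (hs.revise hF hmono i j hc.1.1 hc.1.2)
  | branch i v c₁ c₂ ih₁ ih₂ =>
    intro D hc hs
    simp only [check, Bool.and_eq_true] at hc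
    by_cases hv : F i = v
    · refine ih₁ _ hc.1 (hs.set i _ ?_)
      intro hi
      rw [Nat.testBit_land, hs i hi, Bool.true_and, hv, Nat.testBit_two_pow_self]
    · refine ih₂ _ hc.2 (hs.set i _ ?_)
      intro hi
      rw [Nat.testBit_land, hs i hi, Bool.true_and, Nat.testBit_xor, Nat.testBit_two_pow_sub_one,
        Nat.testBit_two_pow_of_ne (Ne.symm hv)]
      simp [hF i hi]

/-- Initially every value but `i` itself is allowed at `i`. -/
def D₀ : List ℕ := (List.range 21).map (fun i => (2 ^ 21 - 1) ^^^ 2 ^ i)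

/-- The certificate. -/
def cert : Cert :=
  .step 0 6 (.step 0 8 (.step 0 14 (.step 0 16 (.step 0 19 (.step 1 6 (.step 1 9 (.step 1 12
  (.step 1 15 (.step 1 16 (.step 1 18 (.step 1 19 (.step 2 7 (.step 2 10 (.step 2 13 (.step 2 14
  (.step 2 17 (.step 2 18 (.step 2 20 (.step 3 7 (.step 3 11 (.step 3 15 (.step 3 17 (.step 3 20
  (.step 4 8 (.step 4 9 (.step 4 10 (.step 4 11 (.step 4 14 (.step 4 15 (.step 4 16 (.step 4 17
  (.step 5 12 (.step 5 13 (.step 5 18 (.step 5 19 (.step 5 20 (.step 6 16 (.step 6 19 (.step 7 17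
  (.step 7 20 (.step 8 14 (.step 8 16 (.step 9 15 (.step 9 16 (.step 10 14 (.step 10 17 (.step 11
  15 (.step 11 17 (.step 12 18 (.step 12 19 (.step 13 18 (.step 13 20 (.step 14 0 (.step 14 2
  (.step 14 4 (.step 14 8 (.step 14 10 (.step 15 1 (.step 15 3 (.step 15 4 (.step 15 9 (.step 15
  11 (.step 16 0 (.step 16 1 (.step 16 4 (.step 16 6 (.step 16 8 (.step 16 9 (.step 17 2 (.step
  17 3 (.step 17 4 (.step 17 7 (.step 17 10 (.step 17 11 (.step 18 1 (.step 18 2 (.step 18 5
  (.step 18 12 (.step 18 13 (.step 19 0 (.step 19 1 (.step 19 5 (.step 19 6 (.step 19 12 (.step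
  20 2 (.step 20 3 (.step 20 5 (.step 20 7 (.step 20 13 (.step 8 0 (.step 8 4 (.step 10 2 (.step
  10 4 (.step 9 1 (.step 9 4 (.step 11 3 (.step 11 4 (.step 6 0 (.step 6 1 (.step 7 2 (.step 7 3
  (.step 12 1 (.step 12 5 (.step 13 2 (.step 13 5 (.branch 1 0 (.step 1 6 (.step 1 15 (.step 1 18
  (.step 1 19 (.step 6 0 (.step 6 16 (.step 15 11 (.step 16 4 (.step 16 8 (.step 18 2 (.step 4 10
  (.step 4 11 (.step 8 14 (.step 2 10 (.step 14 10 (.step 10 2 (.step 10 14 (.step 10 17 (.step
  17 11 (.step 2 13 (.step 2 20 (.step 14 0 (.step 11 3 (.step 13 5 (.step 0 19 (.step 3 20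
  (.step 19 5 (.step 20 5 (.fail 5))))))))))))))))))))))))))))) (.branch 1 2 (.step 1 12 (.step 1
  15 (.step 1 16 (.step 1 18 (.step 1 19 (.step 12 5 (.step 15 11 (.step 16 8 (.step 18 13 (.step
  8 4 (.step 13 2 (.step 13 20 (.step 4 10 (.step 4 11 (.step 10 17 (.step 17 7 (.step 17 11
  (.step 2 7 (.step 2 10 (.step 11 3 (.step 7 3 (.step 7 17 (.step 17 10 (.step 17 11 (.step 3 20
  (.step 11 4 (.step 20 5 (.step 4 8 (.step 4 10 (.step 5 19 (.step 10 14 (.step 14 8 (.step 19 0
  (.step 0 8 (.step 8 0 (.step 8 14 (.step 14 2 (.step 0 19 (.step 2 13 (.step 19 5 (.step 13 5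
  (.fail 5)))))))))))))))))))))))))))))))))))))))))) (.branch 1 3 (.step 1 9 (.step 1 15 (.step 1
  16 (.step 1 18 (.step 1 19 (.step 9 4 (.step 15 3 (.step 15 11 (.step 16 8 (.step 18 13 (.step
  4 8 (.step 4 10 (.step 3 7 (.step 11 17 (.step 13 2 (.step 10 17 (.step 17 7 (.step 17 10
  (.step 7 2 (.step 7 20 (.step 2 10 (.step 2 13 (.step 10 14 (.step 20 5 (.step 13 5 (.step 14 8
  (.step 5 19 (.step 8 0 (.step 19 0 (.fail 0)))))))))))))))))))))))))))))) (.branch 1 4 (.step 1
  6 (.step 1 9 (.step 1 15 (.step 1 16 (.step 1 18 (.step 9 4 (.step 15 11 (.step 16 8 (.step 18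
  2 (.step 4 8 (.step 4 10 (.step 4 11 (.step 11 17 (.step 8 14 (.step 14 10 (.step 10 17 (.step
  17 7 (.step 17 10 (.step 17 11 (.step 7 2 (.step 7 20 (.step 2 10 (.step 2 13 (.step 10 4
  (.step 10 14 (.step 11 3 (.step 13 5 (.step 14 0 (.step 4 16 (.step 3 20 (.step 0 6 (.step 16 6
  (.step 20 5 (.step 6 19 (.step 19 5 (.fail 5)))))))))))))))))))))))))))))))))))) (.branch 1 5
  (.step 1 12 (.step 1 15 (.step 1 19 (.step 12 5 (.step 12 18 (.step 15 3 (.step 18 2 (.step 18
  13 (.step 3 7 (.step 2 7 (.step 13 2 (.step 13 20 (.step 20 7 (.step 7 3 (.step 7 17 (.step 7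
  20 (.step 17 4 (.step 2 14 (.step 3 15 (.step 20 5 (.step 4 8 (.step 4 9 (.step 14 8 (.step 15
  9 (.step 5 19 (.step 9 16 (.step 16 8 (.step 19 0 (.step 8 0 (.fail
  0)))))))))))))))))))))))))))))) (.branch 1 7 (.step 1 9 (.step 1 15 (.step 1 18 (.step 9 4
  (.step 15 3 (.step 15 11 (.step 18 13 (.step 4 10 (.step 3 7 (.step 11 17 (.step 13 20 (.step
  10 17 (.step 17 7 (.step 20 7 (.fail 7))))))))))))))) (.branch 1 8 (.step 1 6 (.step 1 9 (.step
  1 15 (.step 1 16 (.step 1 18 (.step 1 19 (.step 6 0 (.step 9 4 (.step 15 11 (.step 16 8 (.step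
  18 2 (.step 4 10 (.step 4 11 (.step 8 14 (.step 2 10 (.step 14 10 (.step 10 2 (.step 10 14
  (.step 10 17 (.step 17 7 (.step 17 11 (.step 7 20 (.step 2 13 (.step 14 0 (.step 11 3 (.step 13
  5 (.step 0 19 (.step 3 20 (.step 19 5 (.step 20 5 (.fail 5)))))))))))))))))))))))))))))))
  (.branch 1 10 (.step 1 9 (.step 1 15 (.step 1 16 (.step 1 18 (.step 9 4 (.step 15 11 (.step 16
  8 (.step 18 2 (.step 4 10 (.step 11 17 (.step 8 14 (.step 2 7 (.step 14 10 (.step 10 17 (.step
  17 7 (.fail 7)))))))))))))))) (.branch 1 11 (.step 1 9 (.step 1 15 (.step 1 16 (.step 1 18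
  (.step 1 19 (.step 9 4 (.step 15 3 (.step 15 11 (.step 16 8 (.step 18 2 (.step 4 8 (.step 4 10
  (.step 3 7 (.step 11 17 (.step 10 17 (.step 17 7 (.step 17 10 (.step 7 2 (.step 7 20 (.step 2
  10 (.step 2 13 (.step 10 14 (.step 20 5 (.step 13 5 (.step 14 8 (.step 5 19 (.step 8 0 (.step
  19 0 (.fail 0))))))))))))))))))))))))))))) (.branch 1 13 (.step 1 12 (.step 1 15 (.step 1 16
  (.step 1 18 (.step 1 19 (.step 12 5 (.step 15 3 (.step 16 8 (.step 18 2 (.step 18 13 (.step 3 7
  (.step 2 7 (.step 13 2 (.step 13 20 (.step 20 7 (.step 7 3 (.step 7 17 (.step 7 20 (.step 2 14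
  (.step 3 11 (.step 17 4 (.step 20 5 (.step 14 8 (.step 11 4 (.step 4 8 (.step 5 19 (.step 8 0
  (.step 19 0 (.fail 0))))))))))))))))))))))))))))) (.branch 1 14 (.step 1 9 (.step 1 16 (.step 1
  18 (.step 9 4 (.step 16 8 (.step 18 2 (.step 4 10 (.step 8 14 (.step 2 10 (.step 14 10 (.fail
  10))))))))))) (.branch 1 17 (.step 1 9 (.step 1 15 (.step 1 18 (.step 9 4 (.step 15 11 (.step
  18 2 (.step 4 10 (.step 11 17 (.step 2 7 (.step 10 17 (.step 17 7 (.fail 7)))))))))))) (.branch
  1 20 (.step 1 15 (.step 1 18 (.step 15 3 (.step 18 2 (.step 18 13 (.step 3 7 (.step 2 7 (.step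
  13 20 (.step 20 7 (.fail 7)))))))))) (.fail
  1)))))))))))))))))))))))))))))))))))))))))))))))))))))))))))))))))))))))))))))))))))))))))))))))))))))))))))))))))))))))

theorem check_cert : check cert D₀ = true := by decide +kernel

theorem sat_D₀ {F : ℕ → ℕ} (hF : ∀ i, i < 21 → F i < 21) (hne : ∀ i, i < 21 → F i ≠ i) :
    Sat F D₀ := by
  intro i hi
  have : D₀.getD i 0 = (2 ^ 21 - 1) ^^^ 2 ^ i := by
    simp [D₀, List.getD_eq_getElem?_getD, hi]
  rw [this, Nat.testBit_xor, Nat.testBit_two_pow_sub_one, Nat.testBit_two_pow_of_ne (hne i hi).symm]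
  simp [hF i hi]

theorem fixed_point (f : P →o P) : ∃ x, f x = x := by
  by_contra hcon
  push Not at hcon
  let F : ℕ → ℕ := fun i => if h : i < 21 then (f (pt ⟨i, h⟩)).v else 0
  have hFv : ∀ i (h : i < 21), F i = (f (pt ⟨i, h⟩)).v := fun i h => dif_pos h
  have hF : ∀ i, i < 21 → F i < 21 := by
    intro i hi
    rw [hFv i hi]
    exact P.v_lt _
  have hmono : ∀ i j, i < 21 → j < 21 → (up i).testBit j = true →
      (up (F i)).testBit (F j) = true := by
    intro i j hi hj hij
    rw [hFv i hi, hFv j hj]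
    exact f.monotone (show pt ⟨i, hi⟩ ≤ pt ⟨j, hj⟩ from hij)
  refine check_sound hF hmono cert D₀ check_cert (sat_D₀ hF ?_)
  intro i hi hi'
  rw [hFv i hi] at hi'
  exact hcon (pt ⟨i, hi⟩) (P.ext hi')

/-! ## The two closed sets -/

/-- The set of the elements of `P` given by a bit mask. -/
def S (m : ℕ) : Set P := {a | m.testBit a.v = true}

/-- The union of the triangles containing `x`. -/
def mA : ℕ := dn 14 ||| dn 15 ||| dn 16 ||| dn 17

/-- The union of the triangles containing `y`. -/
def mB : ℕ := dn 18 ||| dn 19 ||| dn 20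

theorem mem_S (m : ℕ) (a : P) (h : m.testBit a.v = true) : a ∈ S m := h

theorem isLowerSet_S (m : ℕ) (h : ∀ a b : Fin 21, (up b.val).testBit a.val = true →
    m.testBit a.val = true → m.testBit b.val = true) : IsLowerSet (S m) :=
  fun a b hab ha => h a b hab ha

theorem dn_up : ∀ a b : Fin 21, (dn b.val).testBit a.val = true →
    (up a.val).testBit b.val = true := by decide +kernel

theorem S_dn (b : P) : S (dn b.v) = Set.Iic b := by
  ext a
  exact ⟨fun h => dn_up a b h, fun h => up_dn a b h⟩

theorem S_lor (m n : ℕ) : S (m ||| n) = S m ∪ S n := by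
  ext a
  simp [S]

theorem mem_Iic (a b : P) (h : (up a.v).testBit b.v = true) : a ∈ Set.Iic b := h

theorem mA_eq : S mA = Set.Iic (pt 14) ∪ Set.Iic (pt 15) ∪ Set.Iic (pt 16) ∪ Set.Iic (pt 17) := by
  rw [← S_dn, ← S_dn, ← S_dn, ← S_dn, ← S_lor, ← S_lor, ← S_lor]
  rfl

theorem mB_eq : S mB = Set.Iic (pt 18) ∪ Set.Iic (pt 19) ∪ Set.Iic (pt 20) := by
  rw [← S_dn, ← S_dn, ← S_dn, ← S_lor, ← S_lor]
  rfl

theorem union_AB : S mA ∪ S mB = Set.univ := by
  rw [← S_lor]
  ext a
  simp only [Set.mem_univ, iff_true]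
  exact (by decide +kernel : ∀ a : Fin 21, (mA ||| mB).testBit a.val = true) a

section topology

variable [TopologicalSpace P] [Topology.IsUpperSet P]

theorem isPreconnected_Iic (b : P) : IsPreconnected (Set.Iic b) := by
  rw [← Topology.IsUpperSet.closure_singleton]
  exact isPreconnected_singleton.closure

theorem conn_A : IsConnected (S mA) := by
  refine ⟨⟨pt 4, mem_S _ _ (by decide +kernel)⟩, ?_⟩
  rw [mA_eq]
  have h14 : pt 4 ∈ Set.Iic (pt 14) := mem_Iic _ _ (by decide +kernel)
  have h15 : pt 4 ∈ Set.Iic (pt 15) := mem_Iic _ _ (by decide +kernel)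
  have h16 : pt 4 ∈ Set.Iic (pt 16) := mem_Iic _ _ (by decide +kernel)
  have h17 : pt 4 ∈ Set.Iic (pt 17) := mem_Iic _ _ (by decide +kernel)
  refine IsPreconnected.union (pt 4) (Or.inl (Or.inl h14)) h17
    (IsPreconnected.union (pt 4) (Or.inl h14) h16
      (IsPreconnected.union (pt 4) h14 h15 ?_ ?_) ?_) ?_ <;> exact isPreconnected_Iic _

theorem conn_B : IsConnected (S mB) := by
  refine ⟨⟨pt 5, mem_S _ _ (by decide +kernel)⟩, ?_⟩
  rw [mB_eq]
  have h18 : pt 5 ∈ Set.Iic (pt 18) := mem_Iic _ _ (by decide +kernel)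
  have h19 : pt 5 ∈ Set.Iic (pt 19) := mem_Iic _ _ (by decide +kernel)
  have h20 : pt 5 ∈ Set.Iic (pt 20) := mem_Iic _ _ (by decide +kernel)
  refine IsPreconnected.union (pt 5) (Or.inl h18) h20
    (IsPreconnected.union (pt 5) h18 h19 ?_ ?_) ?_ <;> exact isPreconnected_Iic _

theorem closed_S (m : ℕ) (h : ∀ a b : Fin 21, (up b.val).testBit a.val = true →
    m.testBit a.val = true → m.testBit b.val = true) : IsClosed (S m) :=
  Topology.IsUpperSet.isClosed_iff_isLower.2 (isLowerSet_S m h)

theorem not_conn_inter : ¬ IsPreconnected (S mA ∩ S mB) := by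
  intro h
  have hU : IsOpen (S (up 0 ||| up 1)) := by
    rw [Topology.IsUpperSet.isOpen_iff_isUpperSet]
    intro a b hab ha
    exact (by decide +kernel : ∀ a b : Fin 21, (up a.val).testBit b.val = true →
      (up 0 ||| up 1).testBit a.val = true → (up 0 ||| up 1).testBit b.val = true) a b hab ha
  have hV : IsOpen (S (up 2 ||| up 3)) := by
    rw [Topology.IsUpperSet.isOpen_iff_isUpperSet]
    intro a b hab ha
    exact (by decide +kernel : ∀ a b : Fin 21, (up a.val).testBit b.val = true →
      (up 2 ||| up 3).testBit a.val = true → (up 2 ||| up 3).testBit b.val = true) a b hab ha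
  obtain ⟨a, ⟨haA, haB⟩, haU, haV⟩ := h _ _ hU hV (by
    rintro a ⟨haA, haB⟩
    exact (by decide +kernel : ∀ a : Fin 21, mA.testBit a.val = true → mB.testBit a.val = true →
      ((up 0 ||| up 1).testBit a.val = true ∨ (up 2 ||| up 3).testBit a.val = true)) a haA haB)
    ⟨pt 0, ⟨mem_S _ _ (by decide +kernel), mem_S _ _ (by decide +kernel)⟩,
      mem_S _ _ (by decide +kernel)⟩
    ⟨pt 2, ⟨mem_S _ _ (by decide +kernel), mem_S _ _ (by decide +kernel)⟩,
      mem_S _ _ (by decide +kernel)⟩
  exact (by decide +kernel : ∀ a : Fin 21, mA.testBit a.val = true → mB.testBit a.val = true →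
      (up 0 ||| up 1).testBit a.val = true → (up 2 ||| up 3).testBit a.val = true → False)
      a haA haB haU haV

end topology

/-- The negation of the preceding statement: For every finite poset with the up-set (Alexandrov) topology in which every order-preserving self-map has a fixed point, the space is connected and any two closed connected sets covering it have connected intersection. -/
theorem result :
    ¬ (∀ (X : Type) [PartialOrder X] [Fintype X] [TopologicalSpace X] [Topology.IsUpperSet X],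
      (∀ f : X →o X, ∃ x, f x = x) →
        (ConnectedSpace X ∧
          ∀ A B : Set X, IsClosed A → IsClosed B → IsConnected A → IsConnected B →
            A ∪ B = Set.univ → IsConnected (A ∩ B))) := by
  intro h
  let _ : TopologicalSpace P := Topology.upperSet P
  have h' := (h P fixed_point).2 (S mA) (S mB) (closed_S mA (by decide +kernel))
    (closed_S mB (by decide +kernel)) conn_A conn_B union_AB
  exact not_conn_inter h'.isPreconnected

end Pool.Agent.S10356
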