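import Pool.Statements.S00600
import Pool.Agent.Lib.MP_037dd7_al.Main

set_option autoImplicit false
open Pool Pool.MP_037dd7_al

namespace Pool.Agent.S00600

open Pool.Agent.Lib.MP_037dd7_al in
/-- the rank of the homology of the six element spindle in degrees four and five -/
lemma ranks :
    Module.finrank ℚ (LinearMap.ker (bd 4)) - Module.finrank ℚ (LinearMap.range (bd 5)) = 1481 ∧
    Module.finrank ℚ (LinearMap.ker (bd 5)) - Module.finrank ℚ (LinearMap.range (bd 6)) = 8887 := by
  have a0 : Module.finrank ℚ (A 0) = 5 := finrank_A_zero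
  have a1 : Module.finrank ℚ (A 1) + Module.finrank ℚ (A 0) = 36 := finrank_A_succ 0
  have a2 : Module.finrank ℚ (A 2) + Module.finrank ℚ (A 1) = 216 := finrank_A_succ 1
  have a3 : Module.finrank ℚ (A 3) + Module.finrank ℚ (A 2) = 1296 := finrank_A_succ 2
  have a4 : Module.finrank ℚ (A 4) + Module.finrank ℚ (A 3) = 7776 := finrank_A_succ 3
  have a5 : Module.finrank ℚ (A 5) + Module.finrank ℚ (A 4) = 46656 := finrank_A_succ 4
  have h4 : Module.finrank ℚ (LinearMap.ker (bd 4)) + 4 * 1296 =
      Module.finrank ℚ (LinearMap.range (bd 5)) + Module.finrank ℚ (A 4) := finrank_homology 3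
  have h5 : Module.finrank ℚ (LinearMap.ker (bd 5)) + 4 * 7776 =
      Module.finrank ℚ (LinearMap.range (bd 6)) + Module.finrank ℚ (A 5) := finrank_homology 4
  generalize Module.finrank ℚ (A 0) = x0 at *
  generalize Module.finrank ℚ (A 1) = x1 at *
  generalize Module.finrank ℚ (A 2) = x2 at *
  generalize Module.finrank ℚ (A 3) = x3 at *
  generalize Module.finrank ℚ (A 4) = x4 at *
  generalize Module.finrank ℚ (A 5) = x5 at *
  generalize Module.finrank ℚ (LinearMap.ker (bd 4)) = k4 at *
  generalize Module.finrank ℚ (LinearMap.ker (bd 5)) = k5 at *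
  generalize Module.finrank ℚ (LinearMap.range (bd 5)) = r5 at *
  generalize Module.finrank ℚ (LinearMap.range (bd 6)) = r6 at *
  constructor <;> omega

/-- The negation of the preceding statement: For every finite right self-distributive (X,∗), the rank of augmented one-term distributive homology (∂ = Σ(−1)^i d_i, d_i acting by ∗x_i on earlier entries and deleting x_i) satisfies rk H_{n+1} = ∣X∣·rk H_n for all n ≥ ∣X∣−2. -/
theorem result :
    ¬ (∀ (X : Type) [Fintype X] (op : X → X → X),
      (∀ a b c : X, op (op a b) c = op (op a c) (op b c)) →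
      ∀ D : (m : ℕ) → ((Fin (m + 1) → X) →₀ ℚ) →ₗ[ℚ] ((Fin m → X) →₀ ℚ),
        (∀ m : ℕ, D m = ∑ i : Fin (m + 1), ((-1 : ℚ) ^ (i : ℕ)) •
            Finsupp.lmapDomain ℚ ℚ
              (fun (x : Fin (m + 1) → X) (j : Fin m) =>
                if Fin.castSucc j < i then op (x (i.succAbove j)) (x i)
                else x (i.succAbove j))) →
        ∀ n : ℕ, Fintype.card X ≤ n + 2 →
          Module.finrank ℚ (LinearMap.ker (D (n + 1))) -
              Module.finrank ℚ (LinearMap.range (D (n + 2))) =
            Fintype.card X *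
              (Module.finrank ℚ (LinearMap.ker (D n)) -
                Module.finrank ℚ (LinearMap.range (D (n + 1))))) := by
  intro h
  have h1 := h (Fin 6) Pool.Agent.Lib.MP_037dd7_al.op Pool.Agent.Lib.MP_037dd7_al.op_dist
    Pool.Agent.Lib.MP_037dd7_al.bd (fun m => rfl) 4 (by simp)
  obtain ⟨h4, h5⟩ := ranks
  rw [Fintype.card_fin] at h1
  have h2 : (8887 : ℕ) = 6 * 1481 := by
    rw [← h4, ← h5]
    exact h1
  omega

end Pool.Agent.S00600
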