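import Pool.Statements.S01289
import Pool.Agent.Lib.MP_3fc405_al.Main

set_option autoImplicit false
open Pool Pool.MP_3fc405_al

namespace Pool.Agent.S01289

/-- For every division ring D and every infinite-dimensional (left) vector space V over D, every invertible D-linear map of V is a single commutator a b a⁻¹ b⁻¹ of invertible linear maps. -/
theorem result :
    ∀ (D : Type) [DivisionRing D] (V : Type) [AddCommGroup V] [Module D V],
      ¬ Module.Finite D V →
      ∀ g : LinearMap.GeneralLinearGroup D V,
        ∃ a b : LinearMap.GeneralLinearGroup D V, g = a * b * a⁻¹ * b⁻¹ := by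
  intro D _ V _ _ h g
  let e := LinearMap.GeneralLinearGroup.generalLinearEquiv D V
  obtain ⟨a, b, hab⟩ := Pool.Agent.Lib.MP_3fc405_al.main (D := D) (V := V) h (e g)
  have key : a * b = e g * b * a := by
    ext x
    exact hab x
  refine ⟨e.symm a, e.symm b, ?_⟩
  have h1 : e.symm a * e.symm b = g * e.symm b * e.symm a := by
    have := congrArg e.symm key
    simpa using this
  rw [h1]
  group

end Pool.Agent.S01289
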