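import Pool.Statements.S02031
import Pool.Agent.Lib.MP_7c21d5_al.VB10_Final

set_option autoImplicit false
open Pool Pool.MP_7c21d5_al

namespace Pool.Agent.S02031

/-- For every n greater than 3, the virtual braid group on n strands (standard presentation with braid generators, symmetric-group generators and mixed relations) has an injective homomorphism into the invertible m by m matrices over some field, for some m. -/
theorem result :
    ∀ n : ℕ, 3 < n →
      ∃ (k : Type) (inst : Field k) (m : ℕ)
        (f : PresentedGroup
              {w : FreeGroup (ℕ ⊕ ℕ) |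
                (∃ i : ℕ, (i = 0 ∨ n ≤ i) ∧
                    (w = FreeGroup.of (Sum.inl i) ∨ w = FreeGroup.of (Sum.inr i))) ∨
                (∃ i : ℕ, 1 ≤ i ∧ i + 1 ≤ n - 1 ∧
                    (w = FreeGroup.of (Sum.inl i) * FreeGroup.of (Sum.inl (i + 1)) *
                          FreeGroup.of (Sum.inl i) *
                          (FreeGroup.of (Sum.inl (i + 1)) * FreeGroup.of (Sum.inl i) *
                            FreeGroup.of (Sum.inl (i + 1)))⁻¹ ∨
                     w = FreeGroup.of (Sum.inr i) * FreeGroup.of (Sum.inr (i + 1)) *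
                          FreeGroup.of (Sum.inr i) *
                          (FreeGroup.of (Sum.inr (i + 1)) * FreeGroup.of (Sum.inr i) *
                            FreeGroup.of (Sum.inr (i + 1)))⁻¹ ∨
                     w = FreeGroup.of (Sum.inl i) * FreeGroup.of (Sum.inr (i + 1)) *
                          FreeGroup.of (Sum.inr i) *
                          (FreeGroup.of (Sum.inr (i + 1)) * FreeGroup.of (Sum.inr i) *
                            FreeGroup.of (Sum.inl (i + 1)))⁻¹)) ∨
                (∃ i : ℕ, 1 ≤ i ∧ i ≤ n - 1 ∧
                    w = FreeGroup.of (Sum.inr i) * FreeGroup.of (Sum.inr i)) ∨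
                (∃ i j : ℕ, 1 ≤ i ∧ i ≤ n - 1 ∧ 1 ≤ j ∧ j ≤ n - 1 ∧
                    (i + 2 ≤ j ∨ j + 2 ≤ i) ∧
                    (w = FreeGroup.of (Sum.inl i) * FreeGroup.of (Sum.inl j) *
                          (FreeGroup.of (Sum.inl j) * FreeGroup.of (Sum.inl i))⁻¹ ∨
                     w = FreeGroup.of (Sum.inr i) * FreeGroup.of (Sum.inr j) *
                          (FreeGroup.of (Sum.inr j) * FreeGroup.of (Sum.inr i))⁻¹ ∨
                     w = FreeGroup.of (Sum.inl i) * FreeGroup.of (Sum.inr j) *
                          (FreeGroup.of (Sum.inr j) * FreeGroup.of (Sum.inl i))⁻¹))}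
            →* Matrix.GeneralLinearGroup (Fin m) k),
        Function.Injective f := by
  intro n hn
  obtain ⟨k, i1, m, f, hf⟩ := Pool.Agent.VB.vb_linear n hn
  exact ⟨k, i1, m, f, hf⟩

end Pool.Agent.S02031
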