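import Pool.Statements.S02724
import Pool.Agent.Lib.MP_b0cbe6_al.Main

set_option autoImplicit false
open Pool Pool.MP_b0cbe6_al

namespace Pool.Agent.S02724

/-- The negation of the preceding statement: For finite groups G and H with isomorphic complex group algebras (equivalently, the same multiset of irreducible character degrees) and any prime p, G has abelian Sylow p-subgroups iff H does. -/
theorem result :
    ¬ (∀ (G H : Type) [Group G] [Fintype G] [Group H] [Fintype H],
      Nonempty (MonoidAlgebra ℂ G ≃ₐ[ℂ] MonoidAlgebra ℂ H) →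
      ∀ p : ℕ, p.Prime →
        ((∀ P : Sylow p G, ∀ x ∈ (P : Subgroup G), ∀ y ∈ (P : Subgroup G), x * y = y * x) ↔
         (∀ Q : Sylow p H, ∀ x ∈ (Q : Subgroup H), ∀ y ∈ (Q : Subgroup H), x * y = y * x))) := by
  intro h
  have h2 := h Pool.Agent.Lib.MP_b0cbe6_al.G1 Pool.Agent.Lib.MP_b0cbe6_al.G2
    Pool.Agent.Lib.MP_b0cbe6_al.alg_iso 2 Nat.prime_two
  exact Pool.Agent.Lib.MP_b0cbe6_al.sylow_noncomm (h2.mp Pool.Agent.Lib.MP_b0cbe6_al.sylow_comm)

end Pool.Agent.S02724
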