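import Pool.Statements.S03405
import Pool.Agent.Lib.MP_e7c36a_al.Assembly

set_option autoImplicit false
open Pool Pool.MP_e7c36a_al

namespace Pool.Agent.S03405

/-- Every finitely generated group mapping onto the integers with free kernel (any rank) embeds into a group mapping onto the integers whose kernel is free of some finite rank n. -/
theorem result :
    ∀ (G : Type) [Group G], Group.FG G →
      ∀ φ : G →* Multiplicative ℤ, Function.Surjective φ → IsFreeGroup φ.ker →
        ∃ (H : Type) (_ : Group H) (ψ : H →* Multiplicative ℤ) (n : ℕ),
          Function.Surjective ψ ∧ Nonempty (ψ.ker ≃* FreeGroup (Fin n)) ∧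
          ∃ f : G →* H, Function.Injective f := by
  intro G _ hG φ hφ hfree
  exact Pool.Agent.Lib.MP_e7c36a_al.embedding G hG φ hφ hfree

end Pool.Agent.S03405
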