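import Pool.Statements.S03516
import Pool.Agent.Lib.MP_f1c158_al.Final

set_option autoImplicit false
open Pool Pool.MP_f1c158_al

namespace Pool.Agent.S03516

/-- The negation of the preceding statement: For every field k, Hopf algebra H over k and H-module algebra R: if R satisfies a multilinear generalized identity with H-operators whose ordered monomial parts have values generating the unit ideal, then R satisfies a nonzero polynomial identity. -/
theorem result :
    ¬ (∀ (k : Type) [Field k] (H : Type) [Ring H] [HopfAlgebra k H]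
    (R : Type) [Ring R] [Algebra k R] (act : H →ₐ[k] Module.End k R),
    (∀ (h : H) (x y : R), act h (x * y) =
        TensorProduct.lift ((LinearMap.mul k R).compl₁₂
          (act.toLinearMap.flip x) (act.toLinearMap.flip y))
          (Coalgebra.comul (R := k) h)) →
    (∀ h : H, act h 1 = algebraMap k R (Coalgebra.counit (R := k) h)) →
    ∀ (n N : ℕ) (a : Fin N → Fin (n + 1) → R) (g : Fin N → Fin n → H)
      (σ : Fin N → Equiv.Perm (Fin n)),
    (∀ r : Fin n → R, ∑ j, a j 0 *
        (List.ofFn fun i : Fin n => act (g j i) (r (σ j i)) * a j i.succ).prod = 0) →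
    (∃ (M : ℕ) (u w : Fin M → R) (τ : Fin M → Equiv.Perm (Fin n))
        (s : Fin M → Fin n → R),
      ∑ m, u m * (∑ j ∈ Finset.univ.filter (fun j => σ j = τ m), a j 0 *
        (List.ofFn fun i : Fin n => act (g j i) (s m (σ j i)) * a j i.succ).prod)
        * w m = 1) →
    ∃ (m : ℕ) (p : FreeAlgebra k (Fin m)), p ≠ 0 ∧
      ∀ r : Fin m → R, FreeAlgebra.lift k r p = 0) := by
  intro h
  obtain ⟨m, p, hp, hr⟩ := h Pool.Agent.MP_f1c158_al.kk
    (Pool.Agent.MP_f1c158_al.HH Pool.Agent.MP_f1c158_al.kk) Pool.Agent.MP_f1c158_al.RR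
    Pool.Agent.MP_f1c158_al.act Pool.Agent.MP_f1c158_al.act_mod Pool.Agent.MP_f1c158_al.act_unit
    2 2 (fun _ _ => 1) (fun _ _ => Pool.Agent.MP_f1c158_al.gen Pool.Agent.MP_f1c158_al.kk 2 2)
    ![1, Equiv.swap 0 1]
    (by
      intro r
      simp only [Fin.sum_univ_two, List.ofFn_succ, List.ofFn_zero, List.prod_cons, List.prod_nil,
        mul_one, one_mul, Pool.Agent.MP_f1c158_al.act_22]
      simp only [Matrix.cons_val_zero, Matrix.cons_val_one, Equiv.Perm.coe_one, id_eq]
      simp only [← map_mul, ← map_add]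
      rw [show (Fin.succ 0 : Fin 2) = 1 from rfl, Equiv.swap_apply_left, Equiv.swap_apply_right,
        map_add TensorAlgebra.algebraMapInv, map_mul TensorAlgebra.algebraMapInv,
        map_mul TensorAlgebra.algebraMapInv, mul_comm (TensorAlgebra.algebraMapInv (r 1)),
        Pool.Agent.MP_f1c158_al.two_mod, map_zero])
    ⟨1, fun _ => 1, fun _ => 1, fun _ => 1, fun _ _ => 1, by
      have hf : (Finset.univ.filter (fun j : Fin 2 =>
          (![1, Equiv.swap 0 1] : Fin 2 → Equiv.Perm (Fin 2)) j = 1)) = {0} := by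
        decide
      simp only [Finset.univ_unique, Finset.sum_singleton, hf, mul_one,
        Pool.Agent.MP_f1c158_al.act_22_one, List.ofFn_succ, List.ofFn_zero, List.prod_cons,
        List.prod_nil]⟩
  obtain ⟨r, hne⟩ := Pool.Agent.MP_f1c158_al.no_PI m p hp
  exact hne (hr r)

end Pool.Agent.S03516
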