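import Pool.Statements.S03599
import Pool.Agent.Lib.MP_f973c6_al.OnlyIfMain
import Pool.Agent.Lib.MP_f973c6_al.If.Asm

set_option autoImplicit false
open Pool Pool.MP_f973c6_al

/-! The FP_m conjecture for metabelian groups.  The only-if half is `OnlyIfMain.main`, the if half
is `FPmIf.main_if`. -/

namespace Pool.Agent.S03599

/-- For a finitely generated metabelian group G and every m: G has a finite-type free partial resolution of ℤ up to degree m iff no nonzero nonnegative combination of at most m characters outside Σ¹ (nonpositive part disconnected) vanishes. -/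
theorem result :
    ∀ (G : Type) [Group G], Group.FG G → derivedSeries G 2 = ⊥ → ∀ m : ℕ,
      ((∃ (ε : MonoidAlgebra ℤ G →+* ℤ) (n : ℕ → ℕ)
          (d : ∀ i : ℕ, (Fin (n (i + 1)) → MonoidAlgebra ℤ G) →ₗ[MonoidAlgebra ℤ G]
            (Fin (n i) → MonoidAlgebra ℤ G)),
          (∀ g : G, ε (MonoidAlgebra.of ℤ G g) = 1) ∧
          Function.Surjective
              (fun v : Fin (n 0) → MonoidAlgebra ℤ G => ∑ j, ε (v j)) ∧
            (1 ≤ m → ∀ v : Fin (n 0) → MonoidAlgebra ℤ G,
              (∑ j, ε (v j) = 0 ↔ v ∈ LinearMap.range (d 0))) ∧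
            (∀ i : ℕ, i + 1 < m → LinearMap.ker (d i) = LinearMap.range (d (i + 1)))) ↔
        (∀ k : ℕ, k ≤ m → ∀ χ : Fin k → (Additive G →+ ℝ),
          (∀ i, χ i ≠ 0 ∧
            ¬ (∃ S : Finset G, Subgroup.closure (S : Set G) = ⊤ ∧
                (SimpleGraph.induce {g : G | 0 ≤ χ i (Additive.ofMul g)}
                  (SimpleGraph.fromRel (fun g h : G => ∃ s ∈ S, h = g * s))).Connected)) →
          ¬ ∃ c : Fin k → ℝ, (∀ i, 0 ≤ c i) ∧ (∃ i, c i ≠ 0) ∧
              ∀ g : G, ∑ i, c i * χ i (Additive.ofMul g) = 0)) := by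
  intro G _ hfg h2 m
  exact ⟨fun h => Pool.Agent.FPm.OnlyIfMain.main G hfg h2 m h,
    fun h => Pool.Agent.FPmIf.main_if G hfg h2 m h⟩

end Pool.Agent.S03599
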