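import Pool.Statements.S04554
import Pool.Agent.Lib.MP_483d01_an.UE

set_option autoImplicit false
open Pool Pool.MP_483d01_an

namespace Pool.Agent.S04554

open Pool.Agent.Lib.MP_483d01_an in
/-- The negation of the preceding statement: For any permutation and any positive length vector a whose interval exchange has a unique invariant probability measure, and any direction b, there is ε>0 such that for almost every t in (−ε,ε) the lengths a+tb are again uniquely ergodic. -/
theorem result :
    ¬ (∀ (d : ℕ) (π : Equiv.Perm (Fin d)) (UE : (Fin d → ℝ) → Prop),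
    (∀ v : Fin d → ℝ, UE v ↔ ∃! μ : MeasureTheory.Measure ℝ,
        MeasureTheory.IsProbabilityMeasure μ ∧
        μ ((Set.Ico (0 : ℝ) (∑ i : Fin d, v i))ᶜ) = 0 ∧
        MeasureTheory.Measure.map (fun x : ℝ => x + ∑ j : Fin d,
          (Set.Ico (∑ i ∈ (Finset.univ : Finset (Fin d)).filter (fun i : Fin d => i < j), v i)
             ((∑ i ∈ (Finset.univ : Finset (Fin d)).filter (fun i : Fin d => i < j), v i) + v j)).indicator
            (fun _ : ℝ => (∑ i ∈ (Finset.univ : Finset (Fin d)).filter (fun i : Fin d => π i < π j), v i) -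
                      ∑ i ∈ (Finset.univ : Finset (Fin d)).filter (fun i : Fin d => i < j), v i) x) μ = μ) →
    ∀ a b : Fin d → ℝ, (∀ i, 0 < a i) → UE a →
      ∃ ε : ℝ, 0 < ε ∧
        ∀ᵐ t : ℝ ∂(MeasureTheory.volume.restrict (Set.Ioo (-ε) ε)), UE (a + t • b)) := by
  intro H
  -- the irrational parameter
  set α : ℝ := Real.sqrt 2 - 1 with hαdef
  have hs1 : (1 : ℝ) < Real.sqrt 2 := by
    rw [Real.lt_sqrt (by norm_num)]; norm_num
  have hs2 : Real.sqrt 2 < 3 / 2 := by
    rw [Real.sqrt_lt' (by norm_num)]; norm_num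
  have hα0 : 0 < α := by rw [hαdef]; linarith
  have hα1 : α < 1 / 2 := by rw [hαdef]; linarith
  have hirr : Irrational α := by
    rw [hαdef]
    have := irrational_sqrt_two.sub_intCast 1
    simpa using this
  -- direction
  let b : Fin 4 → ℝ := ![0, -1, 0, 1]
  have hb0 : b 0 = 0 := rfl
  have hb1 : b 1 = -1 := rfl
  have hb2 : b 2 = 0 := rfl
  have hb3 : b 3 = 1 := rfl
  obtain ⟨ε, hε, hae⟩ := H 4 perm4 (fun v => ∃! μ : MeasureTheory.Measure ℝ, Inv v μ)
    (fun v => Iff.rfl) (base α) b
    (by
      intro i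
      fin_cases i
      · show 0 < base α 0
        rw [base0]; linarith
      · show 0 < base α 1
        rw [base1]; linarith
      · show 0 < base α 2
        rw [base2]; linarith
      · show 0 < base α 3
        rw [base3]; linarith)
    (ue_base hα0 (by linarith) hirr)
  -- on `(0, min ε (1/2))` unique ergodicity fails
  have hbad : ∀ t : ℝ, 0 < t → t < 1 / 2 → ¬ ∃! μ : MeasureTheory.Measure ℝ, Inv (base α + t • b) μ := by
    intro t ht0 ht1
    have v0 : (base α + t • b) 0 = 1 - α := by
      simp only [Pi.add_apply, Pi.smul_apply, smul_eq_mul, hb0, base0]; ring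
    have v1 : (base α + t • b) 1 = 1 - α - t := by
      simp only [Pi.add_apply, Pi.smul_apply, smul_eq_mul, hb1, base1]; ring
    have v2 : (base α + t • b) 2 = α := by
      simp only [Pi.add_apply, Pi.smul_apply, smul_eq_mul, hb2, base2]; ring
    have v3 : (base α + t • b) 3 = α + t := by
      simp only [Pi.add_apply, Pi.smul_apply, smul_eq_mul, hb3, base3]; ring
    have hsum : ∑ i : Fin 4, (base α + t • b) i = 2 := by
      rw [sum4, v0, v1, v2, v3]; ring
    have hper : ∀ x : ℝ, 1 - α - t ≤ x → x < 1 - α →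
        T 4 perm4 (base α + t • b) x = x + 1 ∧ T 4 perm4 (base α + t • b) (x + 1) = x := by
      intro x hx1 hx2
      constructor
      · rw [T_piece0 _ (by rw [v1]; linarith) (by rw [v2]; linarith) x (by linarith)
          (by rw [v0]; linarith), v1, v3]
        ring
      · rw [T_piece3 _ (by rw [v1]; linarith) (by rw [v2]; linarith) (x + 1)
          (by rw [v0, v1, v2]; linarith) (by rw [v0, v1, v2, v3]; linarith), v0, v2]
        ring
    have p1 := hper (1 - α - t) (by linarith) (by linarith)
    have p2 := hper (1 - α - t / 2) (by linarith) (by linarith)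
    refine not_ue (base α + t • b) (1 - α - t) (1 - α - t / 2) (by intro h; linarith) ?_ ?_ ?_ ?_ ?_ ?_ ?_
    · rw [hsum]; exact ⟨by linarith, by linarith⟩
    · rw [hsum]; exact ⟨by linarith, by linarith⟩
    · rw [hsum, p1.1]; exact ⟨by linarith, by linarith⟩
    · rw [hsum, p2.1]; exact ⟨by linarith, by linarith⟩
    · rw [p1.1, p1.2]
    · rw [p2.1, p2.2]
    · rw [p2.1]; intro h; linarith
  -- contradiction with positive measure
  rw [MeasureTheory.ae_restrict_iff' measurableSet_Ioo, MeasureTheory.ae_iff] at hae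
  have hsub : Set.Ioo (0 : ℝ) (min ε (1 / 2)) ⊆
      {t | ¬(t ∈ Set.Ioo (-ε) ε → ∃! μ : MeasureTheory.Measure ℝ, Inv (base α + t • b) μ)} := by
    intro t ht
    have h1 : t < ε := lt_of_lt_of_le ht.2 (min_le_left _ _)
    have h2 : t < 1 / 2 := lt_of_lt_of_le ht.2 (min_le_right _ _)
    intro hcon
    exact hbad t ht.1 h2 (hcon ⟨by linarith [ht.1], h1⟩)
  have hpos : 0 < MeasureTheory.volume (Set.Ioo (0 : ℝ) (min ε (1 / 2))) := by
    rw [Real.volume_Ioo]
    simp only [sub_zero, ENNReal.ofReal_pos]
    exact lt_min hε (by norm_num)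
  have := MeasureTheory.measure_mono_null hsub hae
  exact absurd this hpos.ne'

end Pool.Agent.S04554
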