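import Pool.Statements.S04578
import Pool.Agent.Lib.MP_49c203_an.C.Cl
import Pool.Agent.Lib.MP_49c203_an.I.Fin

set_option autoImplicit false
open Pool Pool.MP_49c203_an

namespace Pool.Agent.S04578

/-- The negation of the preceding statement: If f is a homeomorphism from an infinite-dimensional real Hilbert space to a real Hilbert space, and at every point the limsup as r→0 of (max/min of ∣f(y)−f(x)∣ over ∣y−x∣=r) equals 1, then f scales all distances by a fixed c>0. -/
theorem result :
    ¬ (∀ (E F : Type) [NormedAddCommGroup E] [InnerProductSpace ℝ E] [CompleteSpace E]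
      [NormedAddCommGroup F] [InnerProductSpace ℝ F] [CompleteSpace F],
      ¬ FiniteDimensional ℝ E →
      ∀ f : E ≃ₜ F,
        (∀ x : E,
          Filter.limsup
            (fun r : ℝ =>
              (⨆ y ∈ Metric.sphere x r, edist (f y) (f x)) /
                (⨅ y ∈ Metric.sphere x r, edist (f y) (f x)))
            (nhdsWithin (0 : ℝ) (Set.Ioi 0)) = 1) →
        ∃ c : ℝ, 0 < c ∧ ∀ x y : E, dist (f x) (f y) = c * dist x y) := by
  exact QC49.final QC49.core

end Pool.Agent.S04578
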