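import Pool.Statements.S04991
import Pool.Agent.Lib.MP_6f1701_an.PartC

set_option autoImplicit false
open Filter Topology
open Pool Pool.MP_6f1701_an

namespace Pool.Agent.S04991

/-- There is a holomorphic, non-constant f on the unit disc with nowhere-zero derivative and asymptotic values (finite or infinite) at a dense set of circle points, plus Jordan arcs in the disc tending to a boundary arc on which min ∣f∣ tends to infinity. -/
theorem result :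
    ∃ f : ℂ → ℂ,
      DifferentiableOn ℂ f (Metric.ball (0 : ℂ) 1) ∧
      (¬ ∃ c : ℂ, ∀ z ∈ Metric.ball (0 : ℂ) 1, f z = c) ∧
      (∀ z ∈ Metric.ball (0 : ℂ) 1, deriv f z ≠ 0) ∧
      (∀ ζ₀ ∈ Metric.sphere (0 : ℂ) 1, ∀ ε : ℝ, 0 < ε →
        ∃ ζ ∈ Metric.sphere (0 : ℂ) 1, dist ζ ζ₀ < ε ∧
          ∃ γ : ℝ → ℂ, ContinuousOn γ (Set.Ico 0 1) ∧
            (∀ t ∈ Set.Ico (0 : ℝ) 1, γ t ∈ Metric.ball (0 : ℂ) 1) ∧
            Tendsto γ (𝓝[<] (1 : ℝ)) (𝓝 ζ) ∧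
            ((∃ w : ℂ, Tendsto (fun t => f (γ t)) (𝓝[<] (1 : ℝ)) (𝓝 w)) ∨
              Tendsto (fun t => ‖f (γ t)‖) (𝓝[<] (1 : ℝ)) atTop)) ∧
      (∃ a b : ℝ, a < b ∧ b < a + 2 * Real.pi ∧
        ∃ g : ℕ → ℝ → ℂ,
          (∀ n, ContinuousOn (g n) (Set.Icc 0 1) ∧ Set.InjOn (g n) (Set.Icc 0 1) ∧
            g n '' Set.Icc 0 1 ⊆ Metric.ball (0 : ℂ) 1) ∧
          Tendsto (fun n => Metric.hausdorffDist (g n '' Set.Icc 0 1)
              ((fun θ : ℝ => Complex.exp ((θ : ℂ) * Complex.I)) '' Set.Icc a b))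
            atTop (𝓝 0) ∧
          ∀ M : ℝ, ∀ᶠ n in atTop, ∀ t ∈ Set.Icc (0 : ℝ) 1, M ≤ ‖f (g n t)‖) := by
  refine ⟨Pool.Agent.MP_6f1701_an.fd, ?_, Pool.Agent.MP_6f1701_an.fd_nonconst, ?_, ?_,
    Pool.Agent.MP_6f1701_an.arc_tract⟩
  · intro w hw
    exact (Pool.Agent.MP_6f1701_an.fd_deriv hw).differentiableAt.differentiableWithinAt
  · intro w hw
    exact Pool.Agent.MP_6f1701_an.fd_deriv_ne hw
  · intro ζ₀ hζ₀ ε hε
    have h0 : ‖ζ₀‖ = 1 := by simpa using hζ₀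
    obtain ⟨ζ, h1, h2, h3, h4⟩ := Pool.Agent.MP_6f1701_an.exists_near h0 hε
    exact ⟨ζ, by simpa using h1, h4, Pool.Agent.MP_6f1701_an.asym_point h1 h2 h3⟩

end Pool.Agent.S04991
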