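import Pool.Statements.S05305
import Pool.Agent.Lib.MP_8995c5_an.Reduce
import Pool.Agent.Lib.MP_8995c5_an.IBPMain

set_option autoImplicit false
open Pool Pool.MP_8995c5_an

namespace Pool.Agent.S05305

/-- For n≥2 and open Ω in R^n: if f is W^{1,1}_loc with finite distortion (J_f locally integrable, J_f≥0, Df=0 where J_f=0) and exp(λ K_I^{1/(n-1)}) is locally integrable on Ω for some λ>0, then f agrees a.e. with a function continuous on Ω. -/
theorem result :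
  ∀ (n : ℕ), 2 ≤ n → ∀ (Ω : Set (Fin n → ℝ)), IsOpen Ω →
  ∀ (f : (Fin n → ℝ) → (Fin n → ℝ)) (Df : (Fin n → ℝ) → Matrix (Fin n) (Fin n) ℝ),
    (∀ i, MeasureTheory.LocallyIntegrableOn (fun x => f x i) Ω MeasureTheory.volume) →
    (∀ i j, MeasureTheory.LocallyIntegrableOn (fun x => Df x i j) Ω MeasureTheory.volume) →
    (∀ φ : (Fin n → ℝ) → ℝ, ContDiff ℝ (⊤ : ℕ∞) φ → HasCompactSupport φ → tsupport φ ⊆ Ω →
      ∀ i j, ∫ x, f x i * fderiv ℝ φ x (Pi.single j (1 : ℝ) : Fin n → ℝ)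
        = - ∫ x, Df x i j * φ x) →
    MeasureTheory.LocallyIntegrableOn (fun x => (Df x).det) Ω MeasureTheory.volume →
    (∀ᵐ x ∂(MeasureTheory.volume.restrict Ω),
        0 ≤ (Df x).det ∧ ((Df x).det = 0 → Df x = 0)) →
    (∃ l : ℝ, 0 < l ∧ MeasureTheory.LocallyIntegrableOn
        (fun x => Real.exp (l * (if (Df x).det = 0 then (1 : ℝ) else
          ‖Matrix.toEuclideanCLM (𝕜 := ℝ) (Df x).adjugate‖ ^ n / (Df x).det ^ (n - 1))
            ^ ((1 : ℝ) / ((n : ℝ) - 1))))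
        Ω MeasureTheory.volume) →
    ∃ g : (Fin n → ℝ) → (Fin n → ℝ), ContinuousOn g Ω ∧ f =ᵐ[MeasureTheory.volume.restrict Ω] g := by
  exact Pool.Agent.MP8995.main_of_ibp fun _ hn _ _ _ h hp hdet hlog =>
    Pool.Agent.MP8995.ibp hn h hp hdet hlog

end Pool.Agent.S05305
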