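import Pool.Statements.S06201
import Pool.Agent.Lib.MP_ceba03_an.Final

set_option autoImplicit false
open Pool Pool.MP_ceba03_an

namespace Pool.Agent.S06201

/-- There is a closed convolution subalgebra of L^1 of the circle, not the closed span of its idempotents, such that every finite class of integers on which all Fourier transforms of the algebra agree has at most two elements. -/
theorem result :
    ∃ A : Submodule ℂ (MeasureTheory.Lp ℂ 1
        (AddCircle.haarAddCircle : MeasureTheory.Measure UnitAddCircle)),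
      IsClosed (A : Set (MeasureTheory.Lp ℂ 1
        (AddCircle.haarAddCircle : MeasureTheory.Measure UnitAddCircle))) ∧
      (∀ f ∈ A, ∀ g ∈ A, ∃ h ∈ A, ∀ n : ℤ,
        fourierCoeff (h : UnitAddCircle → ℂ) n =
          fourierCoeff (f : UnitAddCircle → ℂ) n * fourierCoeff (g : UnitAddCircle → ℂ) n) ∧
      ¬ (A ≤ (Submodule.span ℂ
          {e : MeasureTheory.Lp ℂ 1
              (AddCircle.haarAddCircle : MeasureTheory.Measure UnitAddCircle) |
            e ∈ A ∧ ∀ n : ℤ,
              fourierCoeff (e : UnitAddCircle → ℂ) n * fourierCoeff (e : UnitAddCircle → ℂ) n =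
                fourierCoeff (e : UnitAddCircle → ℂ) n}).topologicalClosure) ∧
      ∀ n : ℤ,
        {m : ℤ | ∀ f ∈ A, fourierCoeff (f : UnitAddCircle → ℂ) m =
            fourierCoeff (f : UnitAddCircle → ℂ) n}.Finite →
        {m : ℤ | ∀ f ∈ A, fourierCoeff (f : UnitAddCircle → ℂ) m =
            fourierCoeff (f : UnitAddCircle → ℂ) n}.ncard ≤ 2 := by
  exact Pool.Agent.Lib.MP_ceba03_an.assembly Pool.Agent.Lib.MP_ceba03_an.blocks
    Pool.Agent.Lib.MP_ceba03_an.summable_al Pool.Agent.Lib.MP_ceba03_an.summable_ga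
    Pool.Agent.Lib.MP_ceba03_an.ga_nonneg Pool.Agent.Lib.MP_ceba03_an.et_pos
    (fun _ => by positivity)

end Pool.Agent.S06201
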