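/-
MP_f310b7_an: in dimension 4 the inequality 2(ξ_n - 1) ≤ (n+1)(θ_n - 1) is strict.
θ_4 ≥ 2.246 (computer-assisted, with certificates checked by the kernel), ξ_4 ≤ 14393/3498.
-/
import Pool.Statements.S06683
import Pool.Agent.Lib.MP_f310b7_an.Link

set_option autoImplicit false
open Pool Pool.MP_f310b7_an
open Pool.Agent.Lib.MPf310b7

namespace Pool.Agent.S06683

/-- The explicit simplex, scaled by `14393/3498` about its centroid, covers the cube. -/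
theorem cover : Set.Icc (0 : Fin 4 → ℝ) 1 ⊆
    (AffineMap.homothety ((5 : ℝ)⁻¹ • ∑ j, v0 j) (14393 / 3498 : ℝ)) ''
      convexHull ℝ (Set.range v0) := by
  intro y hy
  have hsum := m0_sum y
  have hcomb := m0_comb y
  have hge := m0_ge y hy
  refine ⟨∑ j, ((5 : ℝ)⁻¹ + (3498 / 14393 : ℝ) * (m0 y j - (5 : ℝ)⁻¹)) • v0 j, ?_, ?_⟩
  · refine (convex_convexHull ℝ _).sum_mem (fun j _ => ?_) ?_
      (fun j _ => subset_convexHull ℝ _ (Set.mem_range_self j))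
    · have := hge j
      linarith
    · rw [Finset.sum_add_distrib, ← Finset.mul_sum, Finset.sum_sub_distrib, hsum]
      simp
  · rw [AffineMap.homothety_apply, vsub_eq_sub, vadd_eq_add]
    have h1 : ∑ j, ((5 : ℝ)⁻¹ + (3498 / 14393 : ℝ) * (m0 y j - (5 : ℝ)⁻¹)) • v0 j
        = (1 - 3498 / 14393 : ℝ) • ((5 : ℝ)⁻¹ • ∑ j, v0 j) + (3498 / 14393 : ℝ) • y := by
      conv_rhs => rw [← hcomb]
      rw [Finset.smul_sum, Finset.smul_sum, Finset.smul_sum, ← Finset.sum_add_distrib]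
      refine Finset.sum_congr rfl fun j _ => ?_
      rw [smul_smul, smul_smul, ← add_smul]
      congr 1
      ring
    rw [h1]
    module

/-- In dimension 4, ξ_4 (the least σ ≥ 1 such that some simplex in the cube [0,1]^4, scaled by σ about its centroid, covers the cube) is strictly less than (5/2)(θ_4 − 1) + 1, where θ_4 is the minimal norm of a linear interpolation projector on that cube. -/
theorem result :
    sInf ((fun v : Fin 5 → (Fin 4 → ℝ) =>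
        sInf {σ : ℝ | 1 ≤ σ ∧ Set.Icc (0 : Fin 4 → ℝ) 1 ⊆
          (AffineMap.homothety ((5 : ℝ)⁻¹ • ∑ j, v j) σ) '' convexHull ℝ (Set.range v)}) ''
        {v : Fin 5 → (Fin 4 → ℝ) | AffineIndependent ℝ v ∧ ∀ j, v j ∈ Set.Icc (0 : Fin 4 → ℝ) 1})
    < (5 / 2 : ℝ) *
        (sInf ((fun v : Fin 5 → (Fin 4 → ℝ) =>
            sSup {t : ℝ | ∃ f : (Fin 4 → ℝ) → ℝ, ContinuousOn f (Set.Icc (0 : Fin 4 → ℝ) 1) ∧
              (∀ y ∈ Set.Icc (0 : Fin 4 → ℝ) 1, |f y| ≤ 1) ∧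
              ∃ x ∈ Set.Icc (0 : Fin 4 → ℝ) 1, ∃ l : Fin 5 → ℝ,
                ∑ j, l j = 1 ∧ ∑ j, l j • v j = x ∧ t = |∑ j, f (v j) * l j|}) ''
            {v : Fin 5 → (Fin 4 → ℝ) | AffineIndependent ℝ v ∧ ∀ j, v j ∈ Set.Icc (0 : Fin 4 → ℝ) 1})
          - 1) + 1 := by
  have hxi : sInf ((fun v : Fin 5 → (Fin 4 → ℝ) =>
        sInf {σ : ℝ | 1 ≤ σ ∧ Set.Icc (0 : Fin 4 → ℝ) 1 ⊆
          (AffineMap.homothety ((5 : ℝ)⁻¹ • ∑ j, v j) σ) '' convexHull ℝ (Set.range v)}) ''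
        {v : Fin 5 → (Fin 4 → ℝ) | AffineIndependent ℝ v ∧ ∀ j, v j ∈ Set.Icc (0 : Fin 4 → ℝ) 1})
      ≤ 14393 / 3498 := by
    refine le_trans (csInf_le ?_ ⟨v0, ⟨v0_indep, v0_mem⟩, rfl⟩) ?_
    · refine ⟨0, ?_⟩
      rintro _ ⟨v, -, rfl⟩
      exact Real.sInf_nonneg fun σ hσ => by linarith [hσ.1]
    · exact csInf_le ⟨1, fun σ hσ => hσ.1⟩ ⟨by norm_num, cover⟩
  have hth : (2246 / 1000 : ℝ) ≤ sInf ((fun v : Fin 5 → (Fin 4 → ℝ) =>
            sSup {t : ℝ | ∃ f : (Fin 4 → ℝ) → ℝ, ContinuousOn f (Set.Icc (0 : Fin 4 → ℝ) 1) ∧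
              (∀ y ∈ Set.Icc (0 : Fin 4 → ℝ) 1, |f y| ≤ 1) ∧
              ∃ x ∈ Set.Icc (0 : Fin 4 → ℝ) 1, ∃ l : Fin 5 → ℝ,
                ∑ j, l j = 1 ∧ ∑ j, l j • v j = x ∧ t = |∑ j, f (v j) * l j|}) ''
            {v : Fin 5 → (Fin 4 → ℝ) | AffineIndependent ℝ v ∧
              ∀ j, v j ∈ Set.Icc (0 : Fin 4 → ℝ) 1}) := by
    refine le_csInf (Set.Nonempty.image _ ⟨v0, v0_indep, v0_mem⟩) ?_
    rintro _ ⟨v, ⟨hv, hm⟩, rfl⟩
    exact val_lower v hv hm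
  linarith

end Pool.Agent.S06683
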