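import Pool.Statements.S08232

set_option autoImplicit false
open Pool Pool.MP_3c7c52_co

namespace Pool.Agent.S08232

open MeasureTheory Set

/-- A halving set must have a boundary point inside every connected open set carrying the measure. -/
lemma exists_frontier_mem {Q U : Set (ℝ × ℝ)} (hQ : IsPreconnected Q)
    (hU : IsOpen U) (hpos : volume Q ≠ 0) (hfin : volume Q ≠ ⊤)
    (hhalf : (volume.restrict Q) U = (volume.restrict Q) univ / 2) :
    ∃ p ∈ Q, p ∈ frontier U := by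
  by_contra hcon
  push Not at hcon
  have hsub : Q ⊆ U ∪ (closure U)ᶜ := by
    intro p hp
    by_cases h : p ∈ U
    · exact Or.inl h
    · right
      intro hc
      exact hcon p hp (by rw [hU.frontier_eq]; exact ⟨hc, h⟩)
  have hdisj : Disjoint U (closure U)ᶜ :=
    disjoint_compl_right.mono_left subset_closure
  rw [Measure.restrict_apply hU.measurableSet, Measure.restrict_apply MeasurableSet.univ,
    univ_inter] at hhalf
  rcases IsPreconnected.subset_or_subset hU isClosed_closure.isOpen_compl hdisj hsub hQ with h | h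
  · rw [inter_eq_self_of_subset_right h] at hhalf
    have h1 : volume Q / 2 < volume Q := ENNReal.half_lt_self hpos hfin
    rw [← hhalf] at h1
    exact lt_irrefl _ h1
  · have h0 : U ∩ Q = ∅ := by
      rw [← disjoint_iff_inter_eq_empty]
      exact hdisj.mono_right h
    rw [h0, measure_empty] at hhalf
    have h2 : volume Q / 2 ≠ 0 := by
      simp [ENNReal.div_eq_zero_iff, hpos]
    exact h2 hhalf.symm

/-- If any two of the points of a family share a coordinate, they all lie on one axis-parallel line. -/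
lemma on_line {f : ℝ → ℝ × ℝ} {I : Set ℝ}
    (h : ∀ x ∈ I, ∀ y ∈ I, (f x).1 = (f y).1 ∨ (f x).2 = (f y).2) :
    (∀ x ∈ I, ∀ y ∈ I, (f x).1 = (f y).1) ∨ (∀ x ∈ I, ∀ y ∈ I, (f x).2 = (f y).2) := by
  by_contra hcon
  push Not at hcon
  obtain ⟨⟨a, ha, b, hb, hab⟩, ⟨c, hc, d, hd, hcd⟩⟩ := hcon
  have h1 := (h a ha b hb).resolve_left hab
  have h2 := (h c hc d hd).resolve_right hcd
  have h3 := h a ha c hc
  have h4 := h a ha d hd
  have h5 := h b hb c hc
  have h6 := h b hb d hd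
  rcases h3 with h3 | h3 <;> rcases h4 with h4 | h4 <;> rcases h5 with h5 | h5 <;>
    rcases h6 with h6 | h6 <;>
    first
    | exact hab (h3.trans h5.symm)
    | exact hab (h3.trans (h2.trans h6.symm))
    | exact hab (h4.trans (h2.symm.trans h5.symm))
    | exact hab (h4.trans h6.symm)
    | exact hcd (h3.symm.trans h4)
    | exact hcd (h3.symm.trans (h1.trans h6))
    | exact hcd (h5.symm.trans (h1.symm.trans h4))
    | exact hcd (h5.symm.trans h6)

/-- On a vertical piece the second coordinate of an interior point is strictly between those of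
the ends. -/
lemma between_snd {f : ℝ → ℝ × ℝ} (hc : Continuous f) (hi : Function.Injective f)
    {a b c : ℝ} (hab : a < b) (hbc : b < c)
    (h : ∀ x ∈ Icc a c, ∀ y ∈ Icc a c, (f x).1 = (f y).1) :
    ((f a).2 < (f b).2 ∧ (f b).2 < (f c).2) ∨ ((f c).2 < (f b).2 ∧ (f b).2 < (f a).2) := by
  have hac : a ≤ c := (hab.trans hbc).le
  have hinj : InjOn (fun x => (f x).2) (Icc a c) := by
    intro x hx y hy hxy
    exact hi (Prod.ext (h x hx y hy) hxy)
  have hcont : ContinuousOn (fun x => (f x).2) (Icc a c) :=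
    (continuous_snd.comp hc).continuousOn
  rcases ContinuousOn.strictMonoOn_of_injOn_Icc' hac hcont hinj with hm | hm
  · left
    exact ⟨hm ⟨le_refl _, hac⟩ ⟨hab.le, hbc.le⟩ hab, hm ⟨hab.le, hbc.le⟩ ⟨hac, le_refl _⟩ hbc⟩
  · right
    exact ⟨hm ⟨hab.le, hbc.le⟩ ⟨hac, le_refl _⟩ hbc, hm ⟨le_refl _, hac⟩ ⟨hab.le, hbc.le⟩ hab⟩

/-- The same on a horizontal piece. -/
lemma between_fst {f : ℝ → ℝ × ℝ} (hc : Continuous f) (hi : Function.Injective f)
    {a b c : ℝ} (hab : a < b) (hbc : b < c)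
    (h : ∀ x ∈ Icc a c, ∀ y ∈ Icc a c, (f x).2 = (f y).2) :
    ((f a).1 < (f b).1 ∧ (f b).1 < (f c).1) ∨ ((f c).1 < (f b).1 ∧ (f b).1 < (f a).1) := by
  have hac : a ≤ c := (hab.trans hbc).le
  have hinj : InjOn (fun x => (f x).1) (Icc a c) := by
    intro x hx y hy hxy
    exact hi (Prod.ext hxy (h x hx y hy))
  have hcont : ContinuousOn (fun x => (f x).1) (Icc a c) :=
    (continuous_fst.comp hc).continuousOn
  rcases ContinuousOn.strictMonoOn_of_injOn_Icc' hac hcont hinj with hm | hm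
  · left
    exact ⟨hm ⟨le_refl _, hac⟩ ⟨hab.le, hbc.le⟩ hab, hm ⟨hab.le, hbc.le⟩ ⟨hac, le_refl _⟩ hbc⟩
  · right
    exact ⟨hm ⟨hab.le, hbc.le⟩ ⟨hac, le_refl _⟩ hbc, hm ⟨le_refl _, hac⟩ ⟨hab.le, hbc.le⟩ hab⟩

/-- Abscissas of the four squares. -/
def cx (i : Fin 4) : ℕ := ![0, 1, 2, 3] i
/-- Ordinates of the four squares. -/
def cy (i : Fin 4) : ℕ := ![0, 2, 1, 3] i

/-- The four small open squares. -/
def sq (i : Fin 4) : Set (ℝ × ℝ) :=
  Ioo ((cx i : ℝ) - 1 / 4) ((cx i : ℝ) + 1 / 4) ×ˢ Ioo ((cy i : ℝ) - 1 / 4) ((cy i : ℝ) + 1 / 4)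

lemma sq_preconnected (i : Fin 4) : IsPreconnected (sq i) :=
  (isPreconnected_Ioo).prod isPreconnected_Ioo

lemma sq_volume (i : Fin 4) : volume (sq i) = ENNReal.ofReal (1 / 2) * ENNReal.ofReal (1 / 2) := by
  rw [sq, Measure.volume_eq_prod, Measure.prod_prod, Real.volume_Ioo, Real.volume_Ioo]
  congr 2 <;> ring

/-- Strict comparison of real coordinates of points of squares gives comparison of indices. -/
lemma lt_of_lt {a b : ℕ} {u v : ℝ} (hu : u ∈ Ioo ((a : ℝ) - 1 / 4) ((a : ℝ) + 1 / 4))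
    (hv : v ∈ Ioo ((b : ℝ) - 1 / 4) ((b : ℝ) + 1 / 4)) (h : u < v) : a ≤ b := by
  by_contra hcon
  push Not at hcon
  have h1 : (b : ℝ) + 1 ≤ a := by exact_mod_cast hcon
  have h2 := hu.1
  have h3 := hv.2
  linarith

lemma ne_of_ne {a b : ℕ} {u v : ℝ} (hu : u ∈ Ioo ((a : ℝ) - 1 / 4) ((a : ℝ) + 1 / 4))
    (hv : v ∈ Ioo ((b : ℝ) - 1 / 4) ((b : ℝ) + 1 / 4)) (h : a ≠ b) : u ≠ v := by
  intro huv
  subst huv
  rcases lt_or_gt_of_ne h with h | h
  · have h1 : (a : ℝ) + 1 ≤ b := by exact_mod_cast h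
    have h2 := hu.2
    have h3 := hv.1
    linarith
  · have h1 : (b : ℝ) + 1 ≤ a := by exact_mod_cast h
    have h2 := hu.1
    have h3 := hv.2
    linarith

/-- Combinatorial core: no order of the four points is compatible with four alternating pieces
of type horizontal, vertical, horizontal, vertical. -/
lemma core1 : ∀ a b c d : Fin 4, a ≠ b → a ≠ c → a ≠ d → b ≠ c → b ≠ d → c ≠ d →
    ((cy a ≤ cy b ∧ cy b ≤ cy c) ∨ (cy c ≤ cy b ∧ cy b ≤ cy a)) →
    ((cx b ≤ cx c ∧ cx c ≤ cx d) ∨ (cx d ≤ cx c ∧ cx c ≤ cx b)) → False := by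
  decide

/-- The same for four alternating pieces of type vertical, horizontal, vertical, horizontal. -/
lemma core2 : ∀ a b c d : Fin 4, a ≠ b → a ≠ c → a ≠ d → b ≠ c → b ≠ d → c ≠ d →
    ((cx a ≤ cx b ∧ cx b ≤ cx c) ∨ (cx c ≤ cx b ∧ cx b ≤ cx a)) →
    ((cy b ≤ cy c ∧ cy c ≤ cy d) ∨ (cy d ≤ cy c ∧ cy c ≤ cy b)) → False := by
  decide

/-- The negation of the preceding statement: For any n finite measures on the plane, each absolutely continuous, there is an unbounded simple path made of at most n horizontal or vertical pieces (at most n−1 turns) one of whose sides has exactly half of each measure. -/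
theorem result :
    ¬ (∀ (n : ℕ) (μ : Fin n → MeasureTheory.Measure (ℝ × ℝ)),
    (∀ i, MeasureTheory.IsFiniteMeasure (μ i)) →
    (∀ i, MeasureTheory.Measure.AbsolutelyContinuous (μ i)
        (MeasureTheory.volume : MeasureTheory.Measure (ℝ × ℝ))) →
    ∃ (f : ℝ → ℝ × ℝ) (s : Finset ℝ),
      Continuous f ∧ Function.Injective f ∧
      Filter.Tendsto (fun x => ‖f x‖) Filter.atTop Filter.atTop ∧
      Filter.Tendsto (fun x => ‖f x‖) Filter.atBot Filter.atTop ∧
      s.card ≤ n - 1 ∧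
      (∀ x y : ℝ, (∀ z ∈ s, z ∉ Set.Ioo (min x y) (max x y)) →
          (f x).1 = (f y).1 ∨ (f x).2 = (f y).2) ∧
      ∃ U : Set (ℝ × ℝ), IsOpen U ∧ frontier U = Set.range f ∧
        ∀ i, μ i U = μ i Set.univ / 2) := by
  intro H
  have hvol : ∀ i : Fin 4, volume (sq i) ≠ ⊤ := by
    intro i
    rw [sq_volume]
    exact ENNReal.mul_ne_top ENNReal.ofReal_ne_top ENNReal.ofReal_ne_top
  have hvol0 : ∀ i : Fin 4, volume (sq i) ≠ 0 := by
    intro i
    rw [sq_volume]
    have : ENNReal.ofReal (1 / 2) ≠ 0 := by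
      rw [Ne, ENNReal.ofReal_eq_zero]
      norm_num
    exact mul_ne_zero this this
  obtain ⟨f, s, hfc, hfi, -, -, hcard, hshare, U, hU, hfr, hhalf⟩ :=
    H 4 (fun i => volume.restrict (sq i))
      (fun i => ⟨by
        rw [Measure.restrict_apply MeasurableSet.univ, univ_inter]
        exact lt_top_iff_ne_top.mpr (hvol i)⟩)
      (fun i => Measure.restrict_le_self.absolutelyContinuous)
  have hex : ∀ i : Fin 4, ∃ t : ℝ, f t ∈ sq i := by
    intro i
    obtain ⟨p, hp, hpf⟩ := exists_frontier_mem (sq_preconnected i) hU (hvol0 i) (hvol i) (hhalf i)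
    rw [hfr] at hpf
    obtain ⟨t, rfl⟩ := hpf
    exact ⟨t, hp⟩
  choose t ht using hex
  have hcx : ∀ i j : Fin 4, i ≠ j → cx i ≠ cx j := by decide
  have hcy : ∀ i j : Fin 4, i ≠ j → cy i ≠ cy j := by decide
  have hne1 : ∀ i j : Fin 4, i ≠ j → (f (t i)).1 ≠ (f (t j)).1 := fun i j hij =>
    ne_of_ne (ht i).1 (ht j).1 (hcx i j hij)
  have hne2 : ∀ i j : Fin 4, i ≠ j → (f (t i)).2 ≠ (f (t j)).2 := fun i j hij =>
    ne_of_ne (ht i).2 (ht j).2 (hcy i j hij)
  have htinj : Function.Injective t := by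
    intro i j hij
    by_contra hcon
    exact hne1 i j hcon (by rw [hij])
  have hsep : ∀ i j : Fin 4, t i < t j → ∃ z ∈ s, t i < z ∧ z < t j := by
    intro i j hij
    have hij' : i ≠ j := by
      rintro rfl
      exact lt_irrefl _ hij
    by_contra hcon
    push Not at hcon
    rcases hshare (t i) (t j) (by
      intro z hz hz'
      rw [min_eq_left hij.le, max_eq_right hij.le] at hz'
      exact absurd hz'.2 (not_lt.mpr (hcon z hz hz'.1))) with h | h
    · exact hne1 i j hij' h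
    · exact hne2 i j hij' h
  -- sort the four parameters
  obtain ⟨σ, hσ⟩ : ∃ σ : Equiv.Perm (Fin 4), Monotone (t ∘ σ) := ⟨Tuple.sort t, Tuple.monotone_sort t⟩
  have hσs : StrictMono (t ∘ σ) := hσ.strictMono_of_injective (htinj.comp σ.injective)
  have hab : t (σ 0) < t (σ 1) := hσs (by decide)
  have hbc : t (σ 1) < t (σ 2) := hσs (by decide)
  have hcd : t (σ 2) < t (σ 3) := hσs (by decide)
  have n01 : σ 0 ≠ σ 1 := fun h => absurd (σ.injective h) (by decide)
  have n02 : σ 0 ≠ σ 2 := fun h => absurd (σ.injective h) (by decide)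
  have n03 : σ 0 ≠ σ 3 := fun h => absurd (σ.injective h) (by decide)
  have n12 : σ 1 ≠ σ 2 := fun h => absurd (σ.injective h) (by decide)
  have n13 : σ 1 ≠ σ 3 := fun h => absurd (σ.injective h) (by decide)
  have n23 : σ 2 ≠ σ 3 := fun h => absurd (σ.injective h) (by decide)
  generalize σ 0 = a at *
  generalize σ 1 = b at *
  generalize σ 2 = c at *
  generalize σ 3 = d at *
  obtain ⟨z1, hz1, ha1, h1b⟩ := hsep a b hab
  obtain ⟨z2, hz2, hb2, h2c⟩ := hsep b c hbc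
  obtain ⟨z3, hz3, hc3, h3d⟩ := hsep c d hcd
  have h12 : z1 < z2 := h1b.trans hb2
  have h23 : z2 < z3 := h2c.trans hc3
  have hs : s = {z1, z2, z3} := by
    symm
    apply Finset.eq_of_subset_of_card_le
    · intro z hz
      simp only [Finset.mem_insert, Finset.mem_singleton] at hz
      rcases hz with rfl | rfl | rfl
      exacts [hz1, hz2, hz3]
    · have h3 : ({z1, z2, z3} : Finset ℝ).card = 3 := by
        rw [Finset.card_eq_three]
        exact ⟨z1, z2, z3, h12.ne, (h12.trans h23).ne, h23.ne, rfl⟩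
      rw [h3]
      exact hcard
  -- the four pieces
  have key : ∀ I : Set ℝ, (∀ x ∈ I, ∀ y ∈ I, ∀ z ∈ s, ¬ (min x y < z ∧ z < max x y)) →
      (∀ x ∈ I, ∀ y ∈ I, (f x).1 = (f y).1) ∨ (∀ x ∈ I, ∀ y ∈ I, (f x).2 = (f y).2) := by
    intro I hI
    exact on_line (fun x hx y hy => hshare x y (fun z hz hz' => hI x hx y hy z hz hz'))
  have k1 := key (Iic z1) (by
    intro x hx y hy z hz
    rw [hs] at hz
    simp only [Finset.mem_insert, Finset.mem_singleton] at hz
    rintro ⟨-, h⟩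
    have hm : max x y ≤ z1 := max_le hx hy
    rcases hz with rfl | rfl | rfl <;> linarith)
  have k2 := key (Icc z1 z2) (by
    intro x hx y hy z hz
    rw [hs] at hz
    simp only [Finset.mem_insert, Finset.mem_singleton] at hz
    rintro ⟨h', h⟩
    have hm : max x y ≤ z2 := max_le hx.2 hy.2
    have hm' : z1 ≤ min x y := le_min hx.1 hy.1
    rcases hz with rfl | rfl | rfl <;> linarith)
  have k3 := key (Icc z2 z3) (by
    intro x hx y hy z hz
    rw [hs] at hz
    simp only [Finset.mem_insert, Finset.mem_singleton] at hz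
    rintro ⟨h', h⟩
    have hm : max x y ≤ z3 := max_le hx.2 hy.2
    have hm' : z2 ≤ min x y := le_min hx.1 hy.1
    rcases hz with rfl | rfl | rfl <;> linarith)
  have k4 := key (Ici z3) (by
    intro x hx y hy z hz
    rw [hs] at hz
    simp only [Finset.mem_insert, Finset.mem_singleton] at hz
    rintro ⟨h', -⟩
    have hm' : z3 ≤ min x y := le_min hx hy
    rcases hz with rfl | rfl | rfl <;> linarith)
  have ma1 : t a ∈ Iic z1 := ha1.le
  have m11 : z1 ∈ Iic z1 := mem_Iic.mpr le_rfl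
  have m12 : z1 ∈ Icc z1 z2 := ⟨le_refl _, h12.le⟩
  have mb2 : t b ∈ Icc z1 z2 := ⟨h1b.le, hb2.le⟩
  have m22 : z2 ∈ Icc z1 z2 := ⟨h12.le, le_refl _⟩
  have m23 : z2 ∈ Icc z2 z3 := ⟨le_refl _, h23.le⟩
  have mc3 : t c ∈ Icc z2 z3 := ⟨h2c.le, hc3.le⟩
  have m33 : z3 ∈ Icc z2 z3 := ⟨h23.le, le_refl _⟩
  have m34 : z3 ∈ Ici z3 := mem_Ici.mpr le_rfl
  have md4 : t d ∈ Ici z3 := h3d.le
  have ia := ht a
  have ib := ht b
  have ic := ht c
  have id' := ht d
  rcases k1 with k1 | k1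
  · -- first piece vertical
    rcases k2 with k2 | k2
    · exact hne1 a b n01 ((k1 _ ma1 _ m11).trans (k2 _ m12 _ mb2))
    rcases k3 with k3 | k3
    swap
    · exact hne2 b c n12 ((k2 _ mb2 _ m22).trans (k3 _ m23 _ mc3))
    rcases k4 with k4 | k4
    · exact hne1 c d n23 ((k3 _ mc3 _ m33).trans (k4 _ m34 _ md4))
    have e1 : (f z1).1 = (f (t a)).1 := k1 _ m11 _ ma1
    have e2 : (f z2).1 = (f (t c)).1 := k3 _ m23 _ mc3
    have e3 : (f z2).2 = (f (t b)).2 := k2 _ m22 _ mb2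
    have e4 : (f z3).2 = (f (t d)).2 := k4 _ m34 _ md4
    have w1 := between_fst hfc hfi h1b hb2 k2
    have w2 := between_snd hfc hfi h2c hc3 k3
    rw [e1, e2] at w1
    rw [e3, e4] at w2
    refine core2 a b c d n01 n02 n03 n12 n13 n23 ?_ ?_
    · rcases w1 with ⟨w, w'⟩ | ⟨w, w'⟩
      · exact Or.inl ⟨lt_of_lt ia.1 ib.1 w, lt_of_lt ib.1 ic.1 w'⟩
      · exact Or.inr ⟨lt_of_lt ic.1 ib.1 w, lt_of_lt ib.1 ia.1 w'⟩
    · rcases w2 with ⟨w, w'⟩ | ⟨w, w'⟩
      · exact Or.inl ⟨lt_of_lt ib.2 ic.2 w, lt_of_lt ic.2 id'.2 w'⟩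
      · exact Or.inr ⟨lt_of_lt id'.2 ic.2 w, lt_of_lt ic.2 ib.2 w'⟩
  · -- first piece horizontal
    rcases k2 with k2 | k2
    swap
    · exact hne2 a b n01 ((k1 _ ma1 _ m11).trans (k2 _ m12 _ mb2))
    rcases k3 with k3 | k3
    · exact hne1 b c n12 ((k2 _ mb2 _ m22).trans (k3 _ m23 _ mc3))
    rcases k4 with k4 | k4
    swap
    · exact hne2 c d n23 ((k3 _ mc3 _ m33).trans (k4 _ m34 _ md4))
    have e1 : (f z1).2 = (f (t a)).2 := k1 _ m11 _ ma1
    have e2 : (f z2).2 = (f (t c)).2 := k3 _ m23 _ mc3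
    have e3 : (f z2).1 = (f (t b)).1 := k2 _ m22 _ mb2
    have e4 : (f z3).1 = (f (t d)).1 := k4 _ m34 _ md4
    have w1 := between_snd hfc hfi h1b hb2 k2
    have w2 := between_fst hfc hfi h2c hc3 k3
    rw [e1, e2] at w1
    rw [e3, e4] at w2
    refine core1 a b c d n01 n02 n03 n12 n13 n23 ?_ ?_
    · rcases w1 with ⟨w, w'⟩ | ⟨w, w'⟩
      · exact Or.inl ⟨lt_of_lt ia.2 ib.2 w, lt_of_lt ib.2 ic.2 w'⟩
      · exact Or.inr ⟨lt_of_lt ic.2 ib.2 w, lt_of_lt ib.2 ia.2 w'⟩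
    · rcases w2 with ⟨w, w'⟩ | ⟨w, w'⟩
      · exact Or.inl ⟨lt_of_lt ib.1 ic.1 w, lt_of_lt ic.1 id'.1 w'⟩
      · exact Or.inr ⟨lt_of_lt id'.1 ic.1 w, lt_of_lt ic.1 ib.1 w'⟩

end Pool.Agent.S08232
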