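import Pool.Statements.S08547
import Pool.Agent.Lib.MP_48c8f3_co.MainAll

set_option autoImplicit false
open Pool Pool.MP_48c8f3_co

namespace Pool.Agent.S08547

/-- For every family F of subsets of [n], if L is the lex initial segment of the same size, some image G of L under a cube automorphism (permute coordinates, then XOR a fixed set) has ∣F Δ G∣ ≤ 2(∣∂F∣ − ∣∂L∣), with ∂ the edge boundary. -/
theorem result :
    ∀ n : ℕ, ∀ F L : Finset (Finset (Fin n)),
      L.card = F.card →
      (∀ x ∈ L, ∀ y ∉ L, ∃ i ∈ x, i ∉ y ∧ ∀ j < i, (j ∈ x ↔ j ∈ y)) →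
      ∃ σ : Equiv.Perm (Fin n), ∃ S : Finset (Fin n),
        (((symmDiff F (L.image (fun x => symmDiff (x.map σ.toEmbedding) S))).card : ℤ) ≤
          2 * ((((F ×ˢ (Finset.univ : Finset (Fin n))).filter
                  (fun p => symmDiff p.1 {p.2} ∉ F)).card : ℤ) -
               (((L ×ˢ (Finset.univ : Finset (Fin n))).filter
                  (fun p => symmDiff p.1 {p.2} ∉ L)).card : ℤ))) :=
  Pool.Agent.EdgeIso.Chk.main_all

end Pool.Agent.S08547
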