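import Pool.Statements.S08990
import Pool.Agent.Lib.MP_5c685b_co.E.Main

set_option autoImplicit false
open Pool Pool.MP_5c685b_co

namespace Pool.Agent.S08990

/-- The negation of the preceding statement: For each k at least 2 there are constants c, C > 0 such that for all large r > k, the minimum-codegree threshold for decomposing large K_r^k-divisible k-graphs into copies of K_r^k lies between 1 - C/r^(k-1) and 1 - c/r^(k-1). -/
theorem result :
    ¬ (∀ k : ℕ, 2 ≤ k → ∃ c C : ℝ, 0 < c ∧ 0 < C ∧ ∃ r0 : ℕ, ∀ r : ℕ, r0 ≤ r → k < r →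
    sInf {δ : ℝ | 0 ≤ δ ∧ δ ≤ 1 ∧ ∃ n0 : ℕ, ∀ n : ℕ, n0 ≤ n →
      ∀ G : Finset (Finset (Fin n)),
        (∀ e ∈ G, e.card = k) →
        (∀ A : Finset (Fin n), A.card < k →
          Nat.choose (r - A.card) (k - A.card) ∣ (G.filter (fun e => A ⊆ e)).card) →
        (∀ A : Finset (Fin n), A.card = k - 1 →
          δ * (n : ℝ) ≤ ((G.filter (fun e => A ⊆ e)).card : ℝ)) →
        ∃ 𝒮 : Finset (Finset (Fin n)),
          (∀ S ∈ 𝒮, S.card = r ∧ ∀ e : Finset (Fin n), e ⊆ S → e.card = k → e ∈ G) ∧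
          ∀ e ∈ G, ∃! S : Finset (Fin n), S ∈ 𝒮 ∧ e ⊆ S}
      ∈ Set.Icc (1 - C / (r : ℝ) ^ (k - 1)) (1 - c / (r : ℝ) ^ (k - 1))) := by
  exact Pool.Agent.Lib.MP_5c685b_co.E.main

end Pool.Agent.S08990
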