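import Pool.Statements.S09049
import Pool.Agent.Lib.MP_5f065d_co.Main
import Pool.Agent.Lib.MP_5f065d_co.Glue
import Pool.Agent.Lib.MP_5f065d_co.Colour
import Pool.Agent.Lib.MP_5f065d_co.NFDec
import Pool.Agent.Lib.MP_5f065d_co.NFExists
import Pool.Agent.Lib.MP_5f065d_co.Merge
import Pool.Agent.Lib.MP_5f065d_co.SL

set_option autoImplicit false
open Pool Pool.MP_5f065d_co

namespace Pool.Agent.S09049

/-- For each d ≥ 1 there is f such that every finite graph that is a union of a forest and a forest with components of diameter ≤ d splits edge-disjointly into two forests whose components all have diameter ≤ f. -/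
theorem result :
    ∀ d : ℕ, 1 ≤ d → ∃ f : ℕ, ∀ (V : Type) [Fintype V] (G F₁ F₂ : SimpleGraph V),
      F₁.IsAcyclic → F₂.IsAcyclic →
      (∀ u v : V, F₂.Reachable u v → F₂.dist u v ≤ d) →
      G = F₁ ⊔ F₂ →
      ∃ H₁ H₂ : SimpleGraph V, H₁ ⊔ H₂ = G ∧ Disjoint H₁ H₂ ∧
        H₁.IsAcyclic ∧ H₂.IsAcyclic ∧
        (∀ u v : V, H₁.Reachable u v → H₁.dist u v ≤ f) ∧
        (∀ u v : V, H₂.Reachable u v → H₂.dist u v ≤ f) := by
  exact RF.main_of_stage (RF.stage_of RF.colour_step
    (RF.decomp_step RF.reroot RF.merge_step (RF.nfdec (RF.nf_exists RF.slStatement))))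

end Pool.Agent.S09049
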