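import Pool.Statements.S09749
import Pool.Agent.Lib.MP_8026b0_co.A01
import Pool.Agent.Lib.MP_8026b0_co.N04

set_option autoImplicit false
open Pool Pool.MP_8026b0_co

namespace Pool.Agent.S09749

/-- For large n, every minimal-area rectangle with sides a ≤ b that holds n non-overlapping unit discs has a/b arbitrarily close to 2 − √3. -/
theorem result :
    ∀ ε : ℝ, 0 < ε → ∃ N : ℕ, ∀ n : ℕ, N ≤ n → ∀ a b : ℝ, a ≤ b →
      (∃ x y : Fin n → ℝ,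
          (∀ i, 1 ≤ x i ∧ x i ≤ a - 1 ∧ 1 ≤ y i ∧ y i ≤ b - 1) ∧
          ∀ i j, i ≠ j → 4 ≤ (x i - x j) ^ 2 + (y i - y j) ^ 2) →
      (∀ a' b' : ℝ,
          (∃ x y : Fin n → ℝ,
            (∀ i, 1 ≤ x i ∧ x i ≤ a' - 1 ∧ 1 ≤ y i ∧ y i ≤ b' - 1) ∧
            ∀ i j, i ≠ j → 4 ≤ (x i - x j) ^ 2 + (y i - y j) ^ 2) →
          a * b ≤ a' * b') →
      |a / b - (2 - Real.sqrt 3)| < ε := by
  intro ε hε
  obtain ⟨N, hN⟩ := Pool.Agent.LG.limit_ratio Pool.Agent.LG.main_ineq Pool.Agent.LG.oler_ineq ε hε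
  exact ⟨N, fun n hn a b hab h1 h2 => hN n hn a b hab h1 h2⟩

end Pool.Agent.S09749
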