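import Pool.Statements.S09903
import Pool.Agent.Lib.MP_87579d_co.Final

set_option autoImplicit false
open Pool Pool.MP_87579d_co

namespace Pool.Agent.S09903

/-- For every N there is a tree with at least N vertices that has no nonrepetitive 3-colouring and has a nonrepetitive 4-colouring, while every proper connected subtree has a nonrepetitive 3-colouring. -/
theorem result :
    ∀ N : ℕ, ∃ m : ℕ, N ≤ m ∧ ∃ G : SimpleGraph (Fin m), G.IsTree ∧
      (¬ ∃ c : Fin m → Fin 3, ∀ (u v : Fin m) (p : G.Walk u v), p.IsPath →
          ∀ n : ℕ, 0 < n → p.support.length = 2 * n →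
            (p.support.map c).take n ≠ (p.support.map c).drop n) ∧
      (∃ c : Fin m → Fin 4, ∀ (u v : Fin m) (p : G.Walk u v), p.IsPath →
          ∀ n : ℕ, 0 < n → p.support.length = 2 * n →
            (p.support.map c).take n ≠ (p.support.map c).drop n) ∧
      ∀ H : G.Subgraph, H.Connected → H ≠ ⊤ →
        ∃ c : H.verts → Fin 3, ∀ (u v : H.verts) (p : H.coe.Walk u v), p.IsPath →
          ∀ n : ℕ, 0 < n → p.support.length = 2 * n →
            (p.support.map c).take n ≠ (p.support.map c).drop n := by
  intro N
  exact Pool.Agent.MP87579d.exists_critical N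

end Pool.Agent.S09903
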