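import Pool.Statements.S10441
import Pool.Agent.Lib.MP_9ef6ec_co.Main

set_option autoImplicit false
open Pool Pool.MP_9ef6ec_co

namespace Pool.Agent.S10441

open Pool.Agent.Lib.MP_9ef6ec_co in
/-- For every complex q with 0 < ∣q−1∣ < 5/27 and every finite simple graph with no K4 minor (i.e. series-parallel), the chromatic polynomial, written as the sum over edge subsets A of (−1)^∣A∣ q^(components of A), is nonzero at q. -/
theorem result :
    ∀ (q : ℂ), 0 < ‖q - 1‖ → ‖q - 1‖ < (5 / 27 : ℝ) →
      ∀ (n : ℕ) (G : SimpleGraph (Fin n)) [DecidableRel G.Adj],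
        (¬ ∃ f : Fin 4 → Set (Fin n),
            (∀ i j, i ≠ j → Disjoint (f i) (f j)) ∧
            (∀ i, (G.induce (f i)).Connected) ∧
            (∀ i j, i ≠ j → ∃ u ∈ f i, ∃ v ∈ f j, G.Adj u v)) →
        (∑ A ∈ G.edgeFinset.powerset,
            ((-1 : ℂ) ^ A.card *
              q ^ Nat.card (SimpleGraph.fromEdgeSet (↑A : Set (Sym2 (Fin n)))).ConnectedComponent)) ≠ 0 := by
  intro q hq0 hq1 n G _ hK
  classical
  obtain ⟨a, ha⟩ : ∃ a : ℂ, a = 1 - q := ⟨_, rfl⟩
  have hna : ‖a‖ = ‖q - 1‖ := by rw [ha, ← norm_neg]; congr 1; ring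
  have ha0 : a ≠ 0 := by
    intro h
    rw [h, norm_zero] at hna
    linarith
  have ha1 : a ≠ 1 := by
    intro h
    rw [h, norm_one] at hna
    linarith
  obtain ⟨D, h0D, hmul, hprod, hlt, hinv⟩ := exists_region a ha0 (by rw [hna]; exact hq1)
  obtain ⟨w, hw⟩ : ∃ w : Sym2 (Fin n) → ℂ, w = fun e => if e ∈ G.edgeSet then -1 else 0 := ⟨_, rfl⟩
  have h0a : (0 : ℂ) ≠ a := Ne.symm ha0
  have hmain := main_ind a ha0 ha1 D hmul hprod hlt hinv _ G Finset.univ w le_rfl
    (fun _ _ => Finset.mem_univ _) hK
    (by intro x y hxy; rw [hw]; simp [SimpleGraph.mem_edgeSet, hxy])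
    (by
      intro x y hxy
      rw [hw]
      simp only [SimpleGraph.mem_edgeSet, hxy, if_true]
      norm_num
      exact ⟨h0D, h0a⟩)
  have hqa : 1 - a = q := by rw [ha]; ring
  rw [hqa] at hmain
  have heq : (ZP w).eval q = ∑ A ∈ G.edgeFinset.powerset,
            ((-1 : ℂ) ^ A.card *
              q ^ Nat.card (SimpleGraph.fromEdgeSet (↑A : Set (Sym2 (Fin n)))).ConnectedComponent) := by
    unfold ZP
    rw [Polynomial.eval_finsetSum]
    symm
    apply Finset.sum_subset_zero_on_sdiff
    · intro A hA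
      rw [Finset.mem_powerset] at hA ⊢
      intro e he
      have he' := hA he
      rw [SimpleGraph.mem_edgeFinset] at he'
      simp only [offd, Finset.mem_filter, Finset.mem_univ, true_and]
      exact G.not_isDiag_of_mem_edgeSet he'
    · intro A hA
      rw [Finset.mem_sdiff, Finset.mem_powerset, Finset.mem_powerset] at hA
      obtain ⟨e, he, hne⟩ := Finset.not_subset.mp hA.2
      have : ∏ e ∈ A, w e = 0 := by
        apply Finset.prod_eq_zero he
        rw [hw]
        rw [SimpleGraph.mem_edgeFinset] at hne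
        simp [hne]
      rw [this]
      simp
    · intro A hA
      rw [Finset.mem_powerset] at hA
      have : ∏ e ∈ A, w e = (-1) ^ A.card := by
        rw [← Finset.prod_const]
        apply Finset.prod_congr rfl
        intro e he
        have he' := hA he
        rw [SimpleGraph.mem_edgeFinset] at he'
        rw [hw]
        simp [he']
      rw [this]
      simp [kk]
  rw [← heq]
  exact hmain

end Pool.Agent.S10441
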