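import Pool.Statements.S10459
import Pool.Agent.Lib.MP_9ff0e7_co.Q.Final

set_option autoImplicit false
open scoped Classical
open Pool Pool.MP_9ff0e7_co

namespace Pool.Agent.S10459

/-- There are c>0 and N such that every set of at least N points in the plane, no three collinear, 2-coloured in any way, has at least c·n² monochromatic 3-subsets whose convex hull contains no other point of the set. -/
theorem result :
    ∃ c : ℝ, 0 < c ∧ ∃ N : ℕ, ∀ X : Finset (ℝ × ℝ), N ≤ X.card →
      (∀ T : Finset (ℝ × ℝ), T ⊆ X → T.card = 3 →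
        ¬ Collinear ℝ ((↑T : Set (ℝ × ℝ)))) →
      ∀ f : ℝ × ℝ → Bool,
        c * ((X.card : ℝ) ^ 2) ≤
          (((X.powersetCard 3).filter (fun T : Finset (ℝ × ℝ) =>
              (∃ b : Bool, ∀ x ∈ T, f x = b) ∧
              Disjoint (convexHull ℝ ((↑T : Set (ℝ × ℝ))))
                ((↑(X \ T) : Set (ℝ × ℝ))))).card : ℝ) := by
  refine ⟨1 / 10 ^ 36, by positivity, 10 ^ 60, ?_⟩
  intro X hN hX f
  exact Pool.Agent.Lib.MP_9ff0e7_co.quad_final X hN hX f

end Pool.Agent.S10459
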