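import Pool.Statements.S10688
import Pool.Agent.Lib.MP_aa5d6e_co.Gadget

set_option autoImplicit false
open Pool Pool.MP_aa5d6e_co

namespace Pool.Agent.S10688

/-- The negation of the preceding statement: For every finite graph G that is k-choosable, and every real r > k and integer m ≥ 1, G is (⌈rm⌉, m)-choosable. Equivalently, the strong fractional choice number of G is at most its choice number. -/
theorem result :
    ¬ (∀ (V : Type) [Fintype V] (G : SimpleGraph V) (k : ℕ),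
    (∀ L : V → Finset ℕ, (∀ v, (L v).card = k) →
        ∃ c : V → ℕ, (∀ v, c v ∈ L v) ∧ ∀ u v, G.Adj u v → c u ≠ c v) →
    ∀ r : ℝ, (k : ℝ) < r → ∀ m : ℕ, 1 ≤ m →
      ∀ L : V → Finset ℕ, (∀ v, (L v).card = ⌈r * (m : ℝ)⌉₊) →
        ∃ f : V → Finset ℕ, (∀ v, f v ⊆ L v ∧ (f v).card = m) ∧
          ∀ u v, G.Adj u v → Disjoint (f u) (f v)) := by
  intro h
  have h5 := h Lib.MP_aa5d6e_co.V Lib.MP_aa5d6e_co.G 4 Lib.MP_aa5d6e_co.four_choosable (21 / 5)
    (by norm_num) 5 (by norm_num) Lib.MP_aa5d6e_co.L₀ (by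
      intro v
      rw [Lib.MP_aa5d6e_co.card_L₀]
      have : ((21 : ℝ) / 5) * ((5 : ℕ) : ℝ) = ((21 : ℕ) : ℝ) := by norm_num
      rw [this, Nat.ceil_natCast])
  exact Lib.MP_aa5d6e_co.no_five_fold h5

end Pool.Agent.S10688
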