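import Pool.Statements.S10914
import Pool.Agent.Lib.MP_b399ad_co.Cx.Extract

set_option autoImplicit false
open Pool Pool.MP_b399ad_co

namespace Pool.Agent.S10914

/-- The negation of the preceding statement: For H = two disjoint two-way infinite paths joined by one edge: every simple graph containing n pairwise edge-disjoint copies of H for each n contains infinitely many pairwise edge-disjoint copies of H. -/
theorem result :
    ¬ (∀ H : SimpleGraph (Bool × ℤ),
      H = SimpleGraph.fromRel (fun x y : Bool × ℤ =>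
        (x.1 = y.1 ∧ x.2 + 1 = y.2) ∨ (x.1 ≠ y.1 ∧ x.2 = 0 ∧ y.2 = 0)) →
    ∀ (V : Type) (G : SimpleGraph V),
      (∀ n : ℕ, ∃ f : Fin n → (H →g G),
        (∀ i, Function.Injective (f i)) ∧
        ∀ i j, i ≠ j → ∀ a b c d, H.Adj a b → H.Adj c d →
          Sym2.mk (f i a, f i b) ≠ Sym2.mk (f j c, f j d)) →
      ∃ f : ℕ → (H →g G),
        (∀ i, Function.Injective (f i)) ∧
        ∀ i j, i ≠ j → ∀ a b c d, H.Adj a b → H.Adj c d →
          Sym2.mk (f i a, f i b) ≠ Sym2.mk (f j c, f j d)) := by
  intro h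
  exact EdgeUbiq.no_infinite_family (h EdgeUbiq.HH rfl EdgeUbiq.V EdgeUbiq.G EdgeUbiq.copies)

end Pool.Agent.S10914
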