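import Pool.Statements.S10968
import Pool.Agent.Lib.MP_b67a76_co.Relax

set_option autoImplicit false
open Pool Pool.MP_b67a76_co

namespace Pool.Agent.S10968

/-- The negation of the preceding statement: For each prime power q there is m>0 such that every finite round matroid (ground set not covered by two non-spanning sets) having a PG(m-1,q)-minor and no U(2,q^2+1)-minor is representable over the field with q elements. -/
theorem result :
    ¬ (∀ q : ℕ, IsPrimePow q → ∃ m : ℕ, 0 < m ∧
      ∀ (F : Type) [Field F] [Fintype F], Fintype.card F = q →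
      ∀ (α : Type) (M : Matroid α), M.E.Finite →
        (∀ X Y : Set α, X ⊆ M.E → Y ⊆ M.E → X ∪ Y = M.E → M.Spanning X ∨ M.Spanning Y) →
        (∃ N : Matroid α, Matroid.IsMinor N M ∧
          ∃ g : α → Projectivization F (Fin m → F), Set.BijOn g N.E Set.univ ∧
            ∀ I : Set α, N.Indep I ↔ (I ⊆ N.E ∧ LinearIndependent F (fun x : I => (g (x : α)).rep))) →
        (¬ ∃ N : Matroid α, Matroid.IsMinor N M ∧ N.E.ncard = q ^ 2 + 1 ∧
          ∀ I : Set α, I ⊆ N.E → (N.Indep I ↔ I.ncard ≤ 2)) →
        ∃ (n : ℕ) (v : α → Fin n → F), ∀ I : Set α,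
          M.Indep I ↔ (I ⊆ M.E ∧ LinearIndependent F (fun x : I => v (x : α)))) := by
  exact Pool.Agent.Lib.MP_b67a76_co.disproof

end Pool.Agent.S10968
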