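import Pool.Statements.S11093
import Pool.Agent.Lib.MP_bbc38a_co.AsmUp
import Pool.Agent.Lib.MP_bbc38a_co.AsmLow

set_option autoImplicit false
open Classical
open Pool Pool.MP_bbc38a_co

namespace Pool.Agent.S11093

/-- For each 0<p<1, each graph F with an edge where every edge lies in a triangle, and each ε>0, the probability that sat(G(n,p),F) is within factor 1±ε of n·log_{1/(1−p)} n tends to 1 as n grows. -/
theorem result :
    ∀ p : ℝ, 0 < p → p < 1 →
    ∀ k : ℕ, ∀ F : SimpleGraph (Fin k),
      F.edgeSet.Nonempty →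
      (∀ u v : Fin k, F.Adj u v → ∃ w : Fin k, F.Adj u w ∧ F.Adj v w) →
      ∀ ε : ℝ, 0 < ε →
        Filter.Tendsto
          (fun n : ℕ =>
            ∑ G ∈ (Finset.univ : Finset (SimpleGraph (Fin n))).filter
                (fun G : SimpleGraph (Fin n) =>
                  (∃ H : SimpleGraph (Fin n),
                      (H ≤ G ∧ ¬ F.IsContained H ∧
                        ∀ u v : Fin n, G.Adj u v → ¬ H.Adj u v →
                          F.IsContained (H ⊔ SimpleGraph.fromEdgeSet {s(u, v)})) ∧
                      (H.edgeSet.ncard : ℝ) ≤ (1 + ε) * ((n : ℝ) * Real.logb (1 / (1 - p)) (n : ℝ))) ∧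
                  (∀ H : SimpleGraph (Fin n),
                      (H ≤ G ∧ ¬ F.IsContained H ∧
                        ∀ u v : Fin n, G.Adj u v → ¬ H.Adj u v →
                          F.IsContained (H ⊔ SimpleGraph.fromEdgeSet {s(u, v)})) →
                      (1 - ε) * ((n : ℝ) * Real.logb (1 / (1 - p)) (n : ℝ)) ≤ (H.edgeSet.ncard : ℝ))),
              p ^ G.edgeSet.ncard * (1 - p) ^ (n.choose 2 - G.edgeSet.ncard))
          Filter.atTop (nhds 1) := by
  intro p hp0 hp1 k F hne htri ε hε
  have h1 := Pool.Bbc38.whp_upper hp0 hp1 F hne htri ε hε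
  have h2 := Pool.Bbc38.whp_lower hp0 hp1 F htri ε hε
  have h3 := Pool.Bbc38.Whp.inter hp0.le hp1.le h1 h2
  unfold Pool.Bbc38.Whp at h3
  refine Filter.Tendsto.congr (fun n => ?_) h3
  exact Pool.Bbc38.Pr_eq p n _ _ _ (fun G => Iff.rfl)

end Pool.Agent.S11093
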