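import Pool.Statements.S12411
import Pool.Agent.Lib.MP_f5167d_co.W.Fin

set_option autoImplicit false
open Pool Pool.MP_f5167d_co

namespace Pool.Agent.S12411

/-- For every finite graph G and every k at least its max degree plus one, any assignment of k-element colour lists admits a proper list colouring in which every colour is used on at most ceil(n/k) vertices. -/
theorem result :
    ∀ (V : Type) [Fintype V] [DecidableEq V] (G : SimpleGraph V) [DecidableRel G.Adj] (k : ℕ),
      G.maxDegree + 1 ≤ k →
      ∀ L : V → Finset ℕ, (∀ v, (L v).card = k) →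
        ∃ c : V → ℕ, (∀ v, c v ∈ L v) ∧ (∀ u v, G.Adj u v → c u ≠ c v) ∧
          ∀ a : ℕ, (Finset.univ.filter (fun v => c v = a)).card ≤ (Fintype.card V + k - 1) / k := by
  intro V _ _ G _ k hk L hL
  have hdeg : ∀ v, (Pool.Agent.Lib.MP_f5167d_co.W.nb G v).card + 1 ≤ k := by
    intro v
    have h1 : Pool.Agent.Lib.MP_f5167d_co.W.nb G v = G.neighborFinset v := by
      ext w; simp
    rw [h1, SimpleGraph.card_neighborFinset_eq_degree]
    have h2 := G.degree_le_maxDegree v
    omega
  have hcard : Fintype.card V ≤ k * ((Fintype.card V + k - 1) / k) := by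
    have hk0 : 0 < k := by omega
    have h1 := Nat.div_add_mod (Fintype.card V + k - 1) k
    have h2 := Nat.mod_lt (Fintype.card V + k - 1) hk0
    omega
  obtain ⟨g, ⟨h1, h2⟩, h3⟩ := Pool.Agent.Lib.MP_f5167d_co.W.kpw V G L k
    ((Fintype.card V + k - 1) / k) hL hdeg hcard
  exact ⟨g, h1, h2, h3⟩

end Pool.Agent.S12411
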