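import Pool.Statements.S12759
import Pool.Agent.Lib.MP_1067ad_gt.Cases

set_option autoImplicit false
open Pool Pool.MP_1067ad_gt

namespace Pool.Agent.S12759

open Cardinal Set Order Pool.Agent.Lib.MP_1067ad_gt

/-- Every set of full cardinality belongs to a uniform ultrafilter. -/
theorem exists_unif (A : Type) (hA : ℵ₀ ≤ #A) (c : Set A) (hc : #c = #A) :
    ∃ q : Ultrafilter A, (∀ s : Set A, s ∈ q → #s = #A) ∧ c ∈ q := by
  let F : Filter A :=
    { sets := {s | #(c \ s : Set A) < #A}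
      univ_sets := by
        show #(c \ Set.univ : Set A) < #A
        simp only [sdiff_univ, mk_eq_zero]
        exact aleph0_pos.trans_le hA
      sets_of_superset := by
        intro x y hx hxy
        refine small_mono (t := c \ x) ?_ hx
        rintro a ⟨ha1, ha2⟩
        exact ⟨ha1, fun h => ha2 (hxy h)⟩
      inter_sets := by
        intro x y hx hy
        refine small_mono ?_ (small_union hA hx hy)
        rintro a ⟨ha1, ha2⟩
        by_cases h : a ∈ x
        · exact Or.inr ⟨ha1, fun h' => ha2 ⟨h, h'⟩⟩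
        · exact Or.inl ⟨ha1, h⟩ }
  have hF : F.NeBot := by
    rw [Filter.neBot_iff]
    intro h
    have h1 : (∅ : Set A) ∈ F := by
      rw [h]; exact Filter.mem_bot
    have h2 : #(c \ ∅ : Set A) < #A := h1
    rw [sdiff_empty, hc] at h2
    exact lt_irrefl _ h2
  refine ⟨Ultrafilter.of F, ?_, ?_⟩
  · intro s hs
    apply le_antisymm (mk_set_le _)
    by_contra hlt
    push Not at hlt
    have h1 : sᶜ ∈ F := by
      show #(c \ sᶜ : Set A) < #A
      exact small_mono (fun a ha => not_not.1 ha.2) hlt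
    have h2 : sᶜ ∈ Ultrafilter.of F := Ultrafilter.of_le F h1
    have h3 := Filter.inter_mem hs h2
    rw [inter_compl_self] at h3
    exact Ultrafilter.empty_notMem h3
  · apply Ultrafilter.of_le F
    show #(c \ c : Set A) < #A
    rw [Set.sdiff_self, mk_eq_zero]
    exact aleph0_pos.trans_le hA

/-- For every singular cardinal α with α⁺ = 2^α, every uniform ultrafilter p on α lies in the boundary of each of 2^α pairwise disjoint open subsets of the space U(α) of uniform ultrafilters on α. -/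
theorem result :
    ∀ (A : Type), Cardinal.aleph0 ≤ Cardinal.mk A → ¬ (Cardinal.mk A).IsRegular →
      Order.succ (Cardinal.mk A) = 2 ^ Cardinal.mk A →
      ∀ p : {u : Ultrafilter A // ∀ s : Set A, s ∈ u → Cardinal.mk s = Cardinal.mk A},
        ∃ (ι : Type) (O : ι → Set {u : Ultrafilter A // ∀ s : Set A, s ∈ u → Cardinal.mk s = Cardinal.mk A}),
          Cardinal.mk ι = 2 ^ Cardinal.mk A ∧ (∀ i, IsOpen (O i)) ∧
            Pairwise (Function.onFun Disjoint O) ∧ ∀ i, p ∈ frontier (O i) := by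
  intro A hA hsing hsucc p
  obtain ⟨I, _, _, ⟨T⟩⟩ := exists_setup A hA hsing
  obtain ⟨𝓡, S, hS1, hS2, hS3⟩ := chains T p.1 p.2
  obtain ⟨cc, hc1, hc2, hc3⟩ := refine_family T {D | D ∈ p.1} hsucc 𝓡 S hS1 hS2 hS3
  let O : Set A → Set {u : Ultrafilter A // ∀ s : Set A, s ∈ u → #s = #A} :=
    fun ξ => {q | ∃ D : {D : Set A // D ∈ p.1}, cc (D, ξ) ∈ q.1}
  have hopen : ∀ ξ, IsOpen (O ξ) := by
    intro ξ
    have h1 : O ξ = ⋃ D : {D : Set A // D ∈ p.1},
        (Subtype.val ⁻¹' {u : Ultrafilter A | cc (D, ξ) ∈ u}) := by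
      ext q
      simp only [O, mem_iUnion, mem_preimage]
      rfl
    rw [h1]
    exact isOpen_iUnion fun D => (ultrafilter_isOpen_basic _).preimage continuous_subtype_val
  have hdisj : Pairwise (Function.onFun Disjoint O) := by
    intro ξ ξ' hne
    rw [Function.onFun, Set.disjoint_left]
    rintro q ⟨D, hD⟩ ⟨D', hD'⟩
    have h1 := q.2 _ (Filter.inter_mem hD hD')
    have h2 := hc3 (D, ξ) (D', ξ') (fun h => hne (congrArg Prod.snd h))
    exact absurd h1 h2.ne
  have hcl : ∀ ξ, p ∈ closure (O ξ) := by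
    intro ξ
    rw [mem_closure_iff]
    intro V hV hpV
    obtain ⟨V', hV', rfl⟩ := isOpen_induced_iff.1 hV
    have hpV' : p.1 ∈ V' := hpV
    obtain ⟨t, ht1, ht2, ht3⟩ := ultrafilterBasis_is_basis.exists_subset_of_mem_open hpV' hV'
    obtain ⟨s, rfl⟩ := ht1
    have hs : s ∈ p.1 := ht2
    obtain ⟨q, hq1, hq2⟩ := exists_unif A hA (cc (⟨s, hs⟩, ξ)) (hc2 _)
    refine ⟨⟨q, hq1⟩, ?_, ⟨⟨s, hs⟩, hq2⟩⟩
    apply ht3
    exact Filter.mem_of_superset hq2 (hc1 (⟨s, hs⟩, ξ))
  refine ⟨Set A, O, mk_set, hopen, hdisj, ?_⟩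
  intro ξ
  rw [frontier, (hopen ξ).interior_eq]
  refine ⟨hcl ξ, ?_⟩
  intro hp
  have hne : Nontrivial (Set A) := by
    have : Nonempty A := by
      rw [← mk_ne_zero_iff]
      intro h
      rw [h] at hA
      exact absurd hA (not_le.2 aleph0_pos)
    infer_instance
  obtain ⟨ξ', hξ'⟩ := exists_ne ξ
  obtain ⟨q, hq1, hq2⟩ := mem_closure_iff.1 (hcl ξ') (O ξ) (hopen ξ) hp
  exact Set.disjoint_left.1 (hdisj hξ') hq2 hq1

end Pool.Agent.S12759
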