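import Pool.Statements.S12941
import Pool.Agent.Lib.MP_2b07f9_gt.Final

set_option autoImplicit false
open Pool Pool.MP_2b07f9_gt

namespace Pool.Agent.S12941

/-- For any smooth immersed hypersurface patch (open connected domain) in the unit 3-sphere of R^5's S^4 with unit normal, if its shape operator is traceless (minimal) and trace of its square is constant (constant scalar curvature), then trace of its cube is constant (constant principal curvatures). -/
theorem result :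
  ∀ (U : Set (EuclideanSpace ℝ (Fin 3)))
    (f ν : EuclideanSpace ℝ (Fin 3) → EuclideanSpace ℝ (Fin 5))
    (S : EuclideanSpace ℝ (Fin 3) → Matrix (Fin 3) (Fin 3) ℝ),
    IsOpen U → IsConnected U →
    ContDiffOn ℝ ((⊤ : ℕ∞) : WithTop ℕ∞) f U →
    ContDiffOn ℝ ((⊤ : ℕ∞) : WithTop ℕ∞) ν U →
    (∀ x ∈ U, Function.Injective (fderiv ℝ f x)) →
    (∀ x ∈ U, ‖f x‖ = 1) →
    (∀ x ∈ U, ‖ν x‖ = 1 ∧ inner ℝ (f x) (ν x) = 0 ∧
      ∀ i : Fin 3, inner ℝ (fderiv ℝ f x (EuclideanSpace.single i (1 : ℝ))) (ν x) = 0) →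
    (∀ x ∈ U, S x =
      (Matrix.of (fun (i : Fin 3) (j : Fin 3) =>
        inner ℝ (fderiv ℝ f x (EuclideanSpace.single i (1 : ℝ)))
          (fderiv ℝ f x (EuclideanSpace.single j (1 : ℝ)))))⁻¹ *
      Matrix.of (fun (i : Fin 3) (j : Fin 3) =>
        -inner ℝ (fderiv ℝ f x (EuclideanSpace.single i (1 : ℝ)))
          (fderiv ℝ ν x (EuclideanSpace.single j (1 : ℝ))))) →
    (∀ x ∈ U, Matrix.trace (S x) = 0) →
    (∃ c : ℝ, ∀ x ∈ U, Matrix.trace (S x * S x) = c) →
    ∃ d : ℝ, ∀ x ∈ U, Matrix.trace (S x * S x * S x) = d := by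
  intro U f ν S hU hUc hf hν hinj hf1 hν1 hS htr hc
  obtain ⟨c, hc⟩ := hc
  exact Bry.main U f ν S hU hUc hf hν hinj hf1 hν1 hS htr c hc

end Pool.Agent.S12941
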