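import Pool.Statements.S13073
import Pool.Agent.Lib.MP_4139f5_gt.K3
import Pool.Agent.Lib.MP_4139f5_gt.K4

set_option autoImplicit false
open scoped Manifold
open CategoryTheory AlgebraicTopology
open Pool Pool.MP_4139f5_gt

namespace Pool.Agent.S13073

open Pool.Agent.Kuiper in
theorem main_metric {N : ℕ} (hN : 4 ≤ N) {M : Type} [MetricSpace M] [CompactSpace M]
    [ConnectedSpace M] [Surf M] [PathConnectedSpace M] (hbd : (bdy M).Nonempty)
    {f : M → EuclideanSpace ℝ (Fin N)} (hf : Continuous f)
    (hinj : ∀ x : M, ∃ U ∈ nhds x, Set.InjOn f U)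
    (hspan : affineSpan ℝ (Set.range f) = ⊤)
    (hmono : ∀ (l : EuclideanSpace ℝ (Fin N) →L[ℝ] ℝ), l ≠ 0 → ∀ c : ℝ, ∀ k : ℕ, k ≤ 1 →
      Mono (((singularHomologyFunctor (ModuleCat.{0} (ZMod 2)) k).obj
          (ModuleCat.of (ZMod 2) (ZMod 2))).map
        (TopCat.ofHom ⟨Subtype.val, continuous_subtype_val⟩ :
          TopCat.of ↥(f ⁻¹' {y | c ≤ l y}) ⟶ TopCat.of M))) :
    ∃ S : Finset (EuclideanSpace ℝ (Fin N)),
      convexHull ℝ (Set.range f) = convexHull ℝ (↑S : Set (EuclideanSpace ℝ (Fin N))) := by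
  have hne : (Set.range f).Nontrivial := by
    by_contra hcon
    rw [Set.not_nontrivial_iff] at hcon
    obtain ⟨m⟩ := (inferInstance : Nonempty M)
    have h1 : Set.range f = {f m} := by
      apply Set.Subset.antisymm
      · intro y hy
        exact hcon hy ⟨m, rfl⟩
      · rintro _ rfl
        exact ⟨m, rfl⟩
    rw [h1] at hspan
    have : Nontrivial (EuclideanSpace ℝ (Fin N)) := by
      have : Nonempty (Fin N) := ⟨⟨0, by omega⟩⟩
      infer_instance
    obtain ⟨y, hy⟩ := exists_ne (f m)
    have h2 : y ∈ affineSpan ℝ ({f m} : Set (EuclideanSpace ℝ (Fin N))) := by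
      rw [hspan]
      exact AffineSubspace.mem_top ℝ _ y
    rw [AffineSubspace.mem_affineSpan_singleton] at h2
    exact hy h2
  have htight : Tight f := by
    refine ⟨hf, hinj, ?_, hspan, ?_⟩
    · intro l c a b ha hb
      by_cases hl : l = 0
      · have huniv : {m | c < l (f m)} = (Set.univ : Set M) := by
          ext m
          rw [hl] at ha ⊢
          simpa using ha
        rw [huniv]
        exact joinedIn_univ.mpr (PathConnectedSpace.joined a b)
      · have h1 : min (l (f a)) (l (f b)) ≤ l (f a) := min_le_left _ _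
        have h2 : min (l (f a)) (l (f b)) ≤ l (f b) := min_le_right _ _
        refine JoinedIn.mono (joined_of_mono (f ⁻¹' {y | min (l (f a)) (l (f b)) ≤ l y})
          (hmono l hl _ 0 (by norm_num)) h1 h2) ?_
        intro m hm
        exact lt_of_lt_of_le (lt_min ha hb) hm
    · intro q hq
      exact exposed_of_mono hbd hf hinj hne hmono hq
  exact htight.polytope (by simpa using hN)

/-- For N at least 4, any continuous locally injective map of a compact connected surface with nonempty boundary into R^N, whose image spans R^N affinely and whose half-space preimages inject on mod-2 H0 and H1, has a convex hull spanned by finitely many points. -/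
theorem result :
  ∀ (N : ℕ), 4 ≤ N →
  ∀ (M : Type) [TopologicalSpace M] [T2Space M] [CompactSpace M] [ConnectedSpace M]
    [ChartedSpace (EuclideanHalfSpace 2) M], IsManifold (𝓡∂ 2) 0 M →
    ((𝓡∂ 2).boundary M).Nonempty →
  ∀ f : M → EuclideanSpace ℝ (Fin N), Continuous f →
    (∀ x : M, ∃ U ∈ nhds x, Set.InjOn f U) →
    affineSpan ℝ (Set.range f) = ⊤ →
    (∀ (l : EuclideanSpace ℝ (Fin N) →L[ℝ] ℝ), l ≠ 0 → ∀ c : ℝ, ∀ k : ℕ, k ≤ 1 →
      Mono (((singularHomologyFunctor (ModuleCat.{0} (ZMod 2)) k).obj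
          (ModuleCat.of (ZMod 2) (ZMod 2))).map
        (TopCat.ofHom ⟨Subtype.val, continuous_subtype_val⟩ :
          TopCat.of ↥(f ⁻¹' {y | c ≤ l y}) ⟶ TopCat.of M))) →
    ∃ S : Finset (EuclideanSpace ℝ (Fin N)),
      convexHull ℝ (Set.range f) = convexHull ℝ (↑S : Set (EuclideanSpace ℝ (Fin N))) := by
  intro N hN M _ _ _ _ _ _ hbd f hf hinj hspan hmono
  have : Pool.Agent.Kuiper.Surf M := Pool.Agent.Kuiper.surf_of_charted
  have : PathConnectedSpace M := Pool.Agent.Kuiper.pathConnected_of_charted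
  have : TopologicalSpace.MetrizableSpace M := Pool.Agent.Kuiper.metrizable_of_charted
  have hb : (Pool.Agent.Kuiper.bdy M).Nonempty := by
    obtain ⟨δ, hδ⟩ := Pool.Agent.Kuiper.exists_halfDisc_of_boundary hbd
    exact ⟨_, hδ.mem_bdy (x := 0) (by simp)⟩
  letI : MetricSpace M := TopologicalSpace.metrizableSpaceMetric M
  exact main_metric hN hb hf hinj hspan hmono

end Pool.Agent.S13073
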