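import Pool.Statements.S13106
import Pool.Agent.Lib.MP_46ea74_gt.Final

set_option autoImplicit false
open MeasureTheory
open scoped Pointwise
open Pool Pool.MP_46ea74_gt

namespace Pool.Agent.S13106

/-- The negation of the preceding statement: For n at least 2, p in [0,1], convex bodies K, L in R^n containing 0: with S_p(A) the boundary integral of h_A(normal)^(1-p) against (n-1)-Hausdorff measure, S_p(K+L)^(1/(n-p)) is at least S_p(K)^(1/(n-p)) plus S_p(L)^(1/(n-p)). -/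
theorem result :
    ¬ (∀ n : ℕ, 2 ≤ n → ∀ p : ℝ, 0 ≤ p → p ≤ 1 →
  ∀ K L : Set (EuclideanSpace ℝ (Fin n)),
    Convex ℝ K → IsCompact K → (interior K).Nonempty → (0 : EuclideanSpace ℝ (Fin n)) ∈ K →
    Convex ℝ L → IsCompact L → (interior L).Nonempty → (0 : EuclideanSpace ℝ (Fin n)) ∈ L →
    ∀ Sp : Set (EuclideanSpace ℝ (Fin n)) → ℝ,
      (∀ A : Set (EuclideanSpace ℝ (Fin n)), Sp A =
        ∫ x in frontier A,
          (sSup {t : ℝ | ∃ u : EuclideanSpace ℝ (Fin n), ‖u‖ = 1 ∧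
            (∀ y ∈ A, @inner ℝ _ _ y u ≤ @inner ℝ _ _ x u) ∧ t = @inner ℝ _ _ x u}) ^ (1 - p)
          ∂(μH[(n : ℝ) - 1])) →
      Sp K ^ (1 / ((n : ℝ) - p)) + Sp L ^ (1 / ((n : ℝ) - p))
        ≤ Sp (K + L) ^ (1 / ((n : ℝ) - p))) := by
  intro H
  have h0 := H 2 le_rfl (1 / 2) (by norm_num) (by norm_num)
    Pool.Agent.Lib.MP_46ea74_gt.K (-Pool.Agent.Lib.MP_46ea74_gt.K)
    Pool.Agent.Lib.MP_46ea74_gt.K_convex
    Pool.Agent.Lib.MP_46ea74_gt.K_compact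
    ⟨0, Pool.Agent.Lib.MP_46ea74_gt.zero_mem_interior_K⟩
    Pool.Agent.Lib.MP_46ea74_gt.zero_mem_K
    Pool.Agent.Lib.MP_46ea74_gt.K_convex.neg
    Pool.Agent.Lib.MP_46ea74_gt.K_compact.neg
    ⟨0, Pool.Agent.Lib.MP_46ea74_gt.zero_mem_interior_negK⟩
    (by simpa using Pool.Agent.Lib.MP_46ea74_gt.zero_mem_K)
    _ (fun A => rfl)
  have e1 : ((2 : ℕ) : ℝ) - 1 = 1 := by norm_num
  have e2 : (1 : ℝ) - 1 / 2 = 1 / 2 := by norm_num
  rw [e1, e2] at h0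
  have k1 := Pool.Agent.Lib.MP_46ea74_gt.int_K (1 / 2)
  have k2 := Pool.Agent.Lib.MP_46ea74_gt.negK_int (1 / 2)
  have k3 := Pool.Agent.Lib.MP_46ea74_gt.int_M (1 / 2)
  rw [← Pool.Agent.Lib.MP_46ea74_gt.sum_eq] at k3
  rw [Pool.Agent.Lib.MP_46ea74_gt.val_K] at k1 k2
  simp only [Pool.Agent.Lib.MP_46ea74_gt.g, Pool.Agent.Lib.MP_46ea74_gt.vals] at k1 k2 k3
  rw [k1, k2, k3] at h0
  exact Pool.Agent.Lib.MP_46ea74_gt.numeric (by exact_mod_cast h0)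

end Pool.Agent.S13106
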