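import Pool.Statements.S13186
import Pool.Agent.Lib.MP_55dccf_gt.Main

set_option autoImplicit false
open Pool Pool.MP_55dccf_gt

namespace Pool.Agent.S13186

/-- The negation of the preceding statement: Every compact metric retract of the Hilbert cube X such that every point of X × [0,1] is a Z_n-point for all n contains a point x such that every map of the square into X is uniformly approximable by maps missing x. -/
theorem result :
    ¬ (∀ (X : Type) [MetricSpace X] [CompactSpace X],
      (∃ e : C(X, ℕ → unitInterval), ∃ r : C(ℕ → unitInterval, X), ∀ x : X, r (e x) = x) →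
      (∀ p : X × unitInterval, ∀ n : ℕ, ∀ f : C(Fin n → unitInterval, X × unitInterval),
        ∀ ε : ℝ, 0 < ε → ∃ g : C(Fin n → unitInterval, X × unitInterval),
          (∀ t, g t ≠ p) ∧ ∀ t, dist (f t) (g t) < ε) →
      ∃ x : X, ∀ f : C(Fin 2 → unitInterval, X), ∀ ε : ℝ, 0 < ε →
        ∃ g : C(Fin 2 → unitInterval, X), (∀ t, g t ≠ x) ∧ ∀ t, dist (f t) (g t) < ε) := by
  exact Pool.MP55.main

end Pool.Agent.S13186
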