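import Pool.Statements.S14068
import Pool.Agent.Lib.MP_db8e30_gt.NotNormal

set_option autoImplicit false
open Pool Pool.MP_db8e30_gt

namespace Pool.Agent.S14068

/-- The negation of the preceding statement: For every Tychonoff X : Type, if X has a clopen basis 𝓑 satisfying the countable-vs-arbitrary separation property and X is compact in the topology generated by complements of closures of members of 𝓑, then X is normal. -/
theorem result :
    ¬ (∀ (X : Type) [TopologicalSpace X] [CompletelyRegularSpace X] [T2Space X],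
      (∃ 𝓑 : Set (Set X),
        TopologicalSpace.IsTopologicalBasis 𝓑 ∧
        (∀ b ∈ 𝓑, IsClopen b) ∧
        (∀ C D : Set (Set X), C ⊆ 𝓑 → D ⊆ 𝓑 → C.Countable →
          (∀ c ∈ C, ∀ d ∈ D, Disjoint c d) →
          ∃ b ∈ 𝓑, (∀ c ∈ C, c ⊆ b) ∧ (∀ d ∈ D, Disjoint b d)) ∧
        @IsCompact X
          (TopologicalSpace.generateFrom {U : Set X | ∃ b ∈ 𝓑, U = (closure b)ᶜ})
          Set.univ) →
      NormalSpace X) := by
  intro H
  -- a well-order of type omega_1
  let α : Type := (Cardinal.aleph 1).ord.ToType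
  have hc : ∀ a : α, (Set.Iio a).Countable := by
    intro a
    have h : Cardinal.mk (Set.Iio a) < Cardinal.aleph 1 := by
      simpa [α] using Cardinal.mk_Iio_lt a (by simp [α])
    rw [← Cardinal.le_aleph0_iff_set_countable]
    exact Cardinal.lt_aleph_one_iff.mp h
  have hu : ¬ (Set.univ : Set α).Countable := by
    intro h
    have h3 : Cardinal.mk α ≤ Cardinal.aleph0 := by
      rw [← Cardinal.mk_univ]
      exact Cardinal.le_aleph0_iff_set_countable.mpr h
    have h4 : Cardinal.mk α = Cardinal.aleph 1 := by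
      simp [α]
    rw [h4] at h3
    exact absurd h3 (not_le.mpr Cardinal.aleph0_lt_aleph_one)
  obtain ⟨e, h1, h2⟩ := Pool.Agent.Lib.MP_db8e30_gt.exists_coherent hc
  have hne : Nonempty α := by
    by_contra hempty
    rw [not_nonempty_iff] at hempty
    exact hu (Set.to_countable _)
  refine Pool.Agent.Lib.MP_db8e30_gt.not_normal hc hu h1 h2
    (H (Pool.Agent.Lib.MP_db8e30_gt.CU (α × ℕ)) ?_)
  refine ⟨Pool.Agent.Lib.MP_db8e30_gt.base (α × ℕ),
    Pool.Agent.Lib.MP_db8e30_gt.isTopologicalBasis_base, ?_,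
    Pool.Agent.Lib.MP_db8e30_gt.separation, Pool.Agent.Lib.MP_db8e30_gt.cocompact⟩
  rintro b ⟨A, -, rfl⟩
  exact Pool.Agent.Lib.MP_db8e30_gt.isClopen_bas A

end Pool.Agent.S14068
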