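import Pool.Statements.S14184
import Pool.Agent.Lib.MP_ee94a4_gt.Main

set_option autoImplicit false
open Pool Pool.MP_ee94a4_gt

namespace Pool.Agent.S14184

/-- The negation of the preceding statement: For every d ≥ 3, the largest minimal number of nonzero translates of a convex body in ℝ^d needed to cover it equals the largest size of a finite set whose distinct pairs are each strictly antipodal (0-antipodal). -/
theorem result :
    ¬ (∀ d : ℕ, 3 ≤ d →
      ∃ n : ℕ,
        IsGreatest
          {m : ℕ | ∃ K : Set (EuclideanSpace ℝ (Fin d)),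
              Convex ℝ K ∧ IsCompact K ∧ (interior K).Nonempty ∧
              IsLeast
                {k : ℕ | ∃ t : Fin k → EuclideanSpace ℝ (Fin d),
                    (∀ i, t i ≠ 0) ∧ K ⊆ ⋃ i, (fun p => t i + p) '' K}
                m}
          n ∧
        IsGreatest
          {m : ℕ | ∃ S : Finset (EuclideanSpace ℝ (Fin d)),
              S.card = m ∧
              ∀ x ∈ S, ∀ y ∈ S, x ≠ y →
                ∃ f : EuclideanSpace ℝ (Fin d) →L[ℝ] ℝ,
                  ∀ z ∈ convexHull ℝ (↑S : Set (EuclideanSpace ℝ (Fin d))),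
                    (z ≠ x → f x < f z) ∧ (z ≠ y → f z < f y)}
          n) := by
  intro h
  obtain ⟨n, ⟨-, hA⟩, ⟨⟨S, hSn, hS⟩, -⟩⟩ := h 3 le_rfl
  have hn : n ≤ 5 := by
    rw [← hSn]
    exact MPee94.gruenbaum S hS
  -- the covering number of the body `K`
  have hex := MPee94.exists_cover MPee94.K_convex MPee94.K_compact MPee94.zero_mem_interior
  classical
  have hleast : IsLeast {k : ℕ | ∃ t : Fin k → EuclideanSpace ℝ (Fin 3),
      (∀ i, t i ≠ 0) ∧ MPee94.K ⊆ ⋃ i, (fun p => t i + p) '' MPee94.K} (Nat.find hex) :=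
    ⟨Nat.find_spec hex, fun k hk => Nat.find_min' hex hk⟩
  have h6 : 6 ≤ Nat.find hex := by
    obtain ⟨t, ht, hK⟩ := Nat.find_spec hex
    exact MPee94.six_le t ht hK
  have := hA ⟨MPee94.K, MPee94.K_convex, MPee94.K_compact, ⟨0, MPee94.zero_mem_interior⟩, hleast⟩
  omega

end Pool.Agent.S14184
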