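import Pool.Statements.S14421
import Pool.Agent.Lib.MP_17bc6d_lc.Transfer

set_option autoImplicit false
open Pool Pool.MP_17bc6d_lc

namespace Pool.Agent.S14421

/-- For every k and every colouring of pairs of ordinals below ω₁·ω₁ with colours 0..k, either some subset of order type ω₁·ω has all pairs coloured 0, or some nonzero colour has a monochromatic triangle. -/
theorem result :
    ∀ k : ℕ, ∀ c : Ordinal.{0} → Ordinal.{0} → Fin (k + 1),
      (∃ f : Ordinal.{0} → Ordinal.{0},
          StrictMonoOn f (Set.Iio (((Cardinal.aleph 1).ord : Ordinal.{0}) * Ordinal.omega0)) ∧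
          (∀ β : Ordinal.{0}, β < ((Cardinal.aleph 1).ord : Ordinal.{0}) * Ordinal.omega0 →
              f β < ((Cardinal.aleph 1).ord : Ordinal.{0}) * ((Cardinal.aleph 1).ord : Ordinal.{0})) ∧
          (∀ β γ : Ordinal.{0}, β < γ →
              γ < ((Cardinal.aleph 1).ord : Ordinal.{0}) * Ordinal.omega0 →
              c (f β) (f γ) = 0)) ∨
      (∃ i : Fin (k + 1), i ≠ 0 ∧
        ∃ a b d : Ordinal.{0}, a < b ∧ b < d ∧
          d < ((Cardinal.aleph 1).ord : Ordinal.{0}) * ((Cardinal.aleph 1).ord : Ordinal.{0}) ∧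
          c a b = i ∧ c a d = i ∧ c b d = i) := by
  intro k c
  exact Pool.Agent.Lib.MP_17bc6d_lc.main k c

end Pool.Agent.S14421
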