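import Pool.Statements.S14976
import Pool.Agent.Lib.MP_829c31_lc.Datum
import Pool.Agent.Lib.MP_829c31_lc.Order

set_option autoImplicit false
open Pool Pool.MP_829c31_lc

namespace Pool.Agent.S14976

/-- The negation of the preceding statement: If a linear order embeds into every nonempty final segment but into no initial part of any cut, and every order strictly below it embeds into a proper initial segment, then it is well-ordered. -/
theorem result :
    ¬ (∀ (α : Type) [LinearOrder α],
      (∀ L : Set α, IsLowerSet L → L ≠ Set.univ →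
          Nonempty (α ↪o ↥(Lᶜ)) ∧ IsEmpty (α ↪o ↥L)) →
      (∀ (β : Type) [LinearOrder β], Nonempty (β ↪o α) → IsEmpty (α ↪o β) →
          ∃ L : Set α, IsLowerSet L ∧ L ≠ Set.univ ∧ Nonempty (β ↪o ↥L)) →
      WellFoundedLT α) := by
  intro h
  obtain ⟨S, hne, hS, hl, hd, hno⟩ := Pool.Agent.Lib.MP_829c31_lc.exists_set
  obtain ⟨h1, h2, h3⟩ := Pool.Agent.Lib.MP_829c31_lc.order_part hne hS hl hd hno
  exact h3 (h _ h1 h2)

end Pool.Agent.S14976
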