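import Pool.Statements.S15205
import Pool.Agent.Lib.MP_ac65b7_lc.KFinal

set_option autoImplicit false
open Pool Pool.MP_ac65b7_lc

namespace Pool.Agent.S15205

/-- For any definably complete, restrained expansion of an ordered field, every subset of K definable from definable open sets (the open core) either has nonempty interior or is nowhere dense. -/
theorem result :
  ∀ (K : Type) [Field K] [LinearOrder K] [IsStrictOrderedRing K] [TopologicalSpace K]
    [OrderTopology K] (L : FirstOrder.Language.{0,0}) [L.Structure K],
    (∅ : Set K).Definable L {v : Fin 3 → K | v 0 + v 1 = v 2} →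
    (∅ : Set K).Definable L {v : Fin 3 → K | v 0 * v 1 = v 2} →
    (∅ : Set K).Definable L {v : Fin 2 → K | v 0 < v 1} →
    (∀ X : Set K, (Set.univ : Set K).Definable L {v : Fin 1 → K | v 0 ∈ X} →
        X.Nonempty → BddAbove X → ∃ s, IsLUB X s) →
    (∀ (n : ℕ) (D : Set (Fin n → K)) (g : (Fin n → K) → K),
        (Set.univ : Set K).Definable L D → DiscreteTopology ↥D →
        (Set.univ : Set K).Definable L
          {v : Fin (n + 1) → K | Fin.init v ∈ D ∧ v (Fin.last n) = g (Fin.init v)} →
        interior (closure (g '' D)) = ∅) →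
    ∀ (L' : FirstOrder.Language.{0,0}) [L'.Structure K],
      (∀ n, IsEmpty (L'.Functions n)) →
      (∀ (n : ℕ) (R : L'.Relations n),
          IsOpen {v : Fin n → K | FirstOrder.Language.Structure.RelMap R v} ∧
          (Set.univ : Set K).Definable L
            {v : Fin n → K | FirstOrder.Language.Structure.RelMap R v}) →
      ∀ X : Set K, (Set.univ : Set K).Definable L' {v : Fin 1 → K | v 0 ∈ X} →
        (interior X).Nonempty ∨ interior (closure X) = ∅ := by
  intro K _ _ _ _ _ L _ hadd hmul hlt hdc hres L' _ hF hR X hX
  let _ : Pool.Agent.IMinK.Str K := ⟨L, inferInstance⟩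
  have : Pool.Agent.IMinK.Res K := ⟨hadd, hmul, hlt, hdc, hres⟩
  exact Pool.Agent.IMinK.iminimal L' hF hR X hX

end Pool.Agent.S15205
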