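import Pool.Statements.S19487
import Pool.Agent.Lib.MP_947a32_pr.Final

set_option autoImplicit false
open Pool Pool.MP_947a32_pr

namespace Pool.Agent.S19487

/-- For every Δ ≥ 3, the Δ-regular tree has a measurable, automorphism-equivariant function of iid vertex labels that is almost surely a perfect matching, with each vertex's partner almost surely determined by the labels in some finite ball. -/
theorem result :
    ∀ Δ : ℕ, 3 ≤ Δ → ∀ (V : Type) (G : SimpleGraph V), G.IsTree →
      (∀ v : V, (G.neighborSet v).encard = ((Δ : ℕ) : ℕ∞)) →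
      ∃ (μ : MeasureTheory.Measure ℝ) (_ : MeasureTheory.IsProbabilityMeasure μ)
        (F : (V → ℝ) → V → V),
        (∀ v w : V, MeasurableSet {ω : V → ℝ | F ω v = w}) ∧
        (∀ (φ : G ≃g G) (ω : V → ℝ) (v : V),
          F (fun u => ω (φ.symm u)) (φ v) = φ (F ω v)) ∧
        (∀ᵐ ω ∂(MeasureTheory.Measure.infinitePi (fun _ : V => μ)),
          ∀ v : V, G.Adj v (F ω v) ∧ F ω (F ω v) = v) ∧
        (∀ᵐ ω ∂(MeasureTheory.Measure.infinitePi (fun _ : V => μ)),
          ∀ v : V, ∃ r : ℕ, ∀ ω' : V → ℝ,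
            (∀ u : V, G.dist v u ≤ r → ω' u = ω u) → F ω' v = F ω v) :=
  fun Δ hΔ V G hG hreg => Pool.Agent.PM.final Δ hΔ V G hG hreg

end Pool.Agent.S19487
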