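import Pool.Statements.S19593
import Pool.Agent.Lib.MP_b9fdbf_pr.PB

set_option autoImplicit false
open MeasureTheory ProbabilityTheory
open Pool Pool.MP_b9fdbf_pr

namespace Pool.Agent.S19593

open Pool.Agent.Worm in
/-- The frozen event, transported to the regrouped probability space. -/
lemma event_eq (N m : Measure ℕ) [IsProbabilityMeasure N] [IsProbabilityMeasure m] :
    ((Measure.infinitePi (fun _ : ℤ × ℤ × ℤ => N)).prod
            ((Measure.infinitePi (fun _ : (ℤ × ℤ × ℤ) × ℕ => m)).prod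
              (Measure.infinitePi
                (fun _ : (ℤ × ℤ × ℤ) × ℕ × ℕ => (PMF.uniformOfFintype (Fin 6)).toMeasure))))
          {ω : (ℤ × ℤ × ℤ → ℕ) × ((ℤ × ℤ × ℤ) × ℕ → ℕ) × ((ℤ × ℤ × ℤ) × ℕ × ℕ → Fin 6) |
            ∃ p : ℕ → ℤ × ℤ × ℤ, Function.Injective p ∧ ∀ n : ℕ,
              |(p (n + 1)).1 - (p n).1| + |(p (n + 1)).2.1 - (p n).2.1|
                  + |(p (n + 1)).2.2 - (p n).2.2| = 1 ∧
              ∃ x : ℤ × ℤ × ℤ, ∃ i : ℕ, i < ω.1 x ∧ ∃ j : ℕ, j < ω.2.1 (x, i) ∧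
                p n = x + ∑ k ∈ Finset.range j,
                  (![(1, 0, 0), (-1, 0, 0), (0, 1, 0), (0, -1, 0), (0, 0, 1), (0, 0, -1)] :
                      Fin 6 → ℤ × ℤ × ℤ) (ω.2.2 (x, i, k))} =
      wormLaw N m {ω | Perc (occOn Set.univ ω)} := by
  rw [← map_regroup N m, Measure.map_apply measurable_regroup measurableSet_perc_occ]
  congr 1
  ext ω
  simp only [Set.mem_ofPred_eq, Set.mem_preimage, Perc]
  refine exists_congr fun p => and_congr_right fun _ => forall_congr' fun n => ?_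
  refine and_congr Iff.rfl ?_
  simp only [occOn, pts, Set.mem_univ, true_and, Set.mem_ofPred_eq]
  rfl

/-- In ℤ³ worm percolation (Poisson(v) worms per site, lengths i.i.d. with m(ℓ)≍ℓ^{-β}, traces of simple random walks), some v>0 gives zero probability of an infinite occupied path exactly when β ≥ 5/2. -/
theorem result :
    ∀ (β : ℝ) (m : PMF ℕ), m 0 = 0 →
      (∃ c C : ℝ, 0 < c ∧ 0 < C ∧ ∀ ℓ : ℕ, 1 ≤ ℓ →
          c * (ℓ : ℝ) ^ (-β) ≤ (m ℓ).toReal ∧ (m ℓ).toReal ≤ C * (ℓ : ℝ) ^ (-β)) →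
      ((∃ v : NNReal, 0 < v ∧
          ((Measure.infinitePi (fun _ : ℤ × ℤ × ℤ => (poissonPMF v).toMeasure)).prod
            ((Measure.infinitePi (fun _ : (ℤ × ℤ × ℤ) × ℕ => m.toMeasure)).prod
              (Measure.infinitePi
                (fun _ : (ℤ × ℤ × ℤ) × ℕ × ℕ => (PMF.uniformOfFintype (Fin 6)).toMeasure))))
          {ω : (ℤ × ℤ × ℤ → ℕ) × ((ℤ × ℤ × ℤ) × ℕ → ℕ) × ((ℤ × ℤ × ℤ) × ℕ × ℕ → Fin 6) |
            ∃ p : ℕ → ℤ × ℤ × ℤ, Function.Injective p ∧ ∀ n : ℕ,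
              |(p (n + 1)).1 - (p n).1| + |(p (n + 1)).2.1 - (p n).2.1|
                  + |(p (n + 1)).2.2 - (p n).2.2| = 1 ∧
              ∃ x : ℤ × ℤ × ℤ, ∃ i : ℕ, i < ω.1 x ∧ ∃ j : ℕ, j < ω.2.1 (x, i) ∧
                p n = x + ∑ k ∈ Finset.range j,
                  (![(1, 0, 0), (-1, 0, 0), (0, 1, 0), (0, -1, 0), (0, 0, 1), (0, 0, -1)] :
                      Fin 6 → ℤ × ℤ × ℤ) (ω.2.2 (x, i, k))} = 0)
        ↔ (5 / 2 : ℝ) ≤ β) := by
  intro β m hm0 hm
  obtain ⟨c, C, hc, hC, hcC⟩ := hm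
  constructor
  · rintro ⟨v, hv, hzero⟩
    by_contra hβ
    rw [not_le] at hβ
    rw [event_eq] at hzero
    have hN : (poissonPMF v).toMeasure {n | 0 < n} ≠ 0 := by
      intro h0
      have h1 : (poissonPMF v).toMeasure {1} = 0 := by
        apply MeasureTheory.measure_mono_null _ h0
        rintro n rfl
        exact Nat.one_pos
      rw [PMF.toMeasure_apply_singleton _ _ (measurableSet_singleton 1),
        ← poissonPMFReal_ofReal_eq_poissonPMF, ENNReal.ofReal_eq_zero] at h1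
      exact absurd (poissonPMFReal_pos hv) (not_lt.mpr h1)
    refine Pool.Agent.Worm.perc_pos (poissonPMF v).toMeasure hN m c (max β 0) hc
      (le_max_right _ _) (max_lt hβ (by norm_num)) (fun ℓ hℓ => ?_) hzero
    refine le_trans ?_ (hcC ℓ hℓ).1
    refine mul_le_mul_of_nonneg_left ?_ hc.le
    apply Real.rpow_le_rpow_of_exponent_le
    · exact_mod_cast hℓ
    · exact neg_le_neg (le_max_left _ _)
  · intro hβ
    set K : NNReal := Real.toNNReal (C * (42 ^ 3 * 1026) * 4) + 27 with hK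
    have hK0 : 0 < K := by positivity
    refine ⟨(4 * (8 ^ 3 * 40 ^ 3) * K)⁻¹, by positivity, ?_⟩
    rw [event_eq]
    refine Pool.Agent.Worm.no_perc _ m C hC.le hm0 (fun L hL => ?_) ?_
    · refine (hcC L hL).2.trans ?_
      refine mul_le_mul_of_nonneg_left ?_ hC.le
      have hL1 : (1 : ℝ) ≤ L := by exact_mod_cast hL
      have hL0 : (0 : ℝ) < L := by linarith
      have h1 : ((L : ℝ) ^ 2 * Real.sqrt L)⁻¹ = (L : ℝ) ^ (-(5 / 2 : ℝ)) := by
        rw [Real.rpow_neg hL0.le, Real.sqrt_eq_rpow, ← Real.rpow_natCast, ← Real.rpow_add hL0]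
        norm_num
      rw [h1]
      exact Real.rpow_le_rpow_of_exponent_le hL1 (neg_le_neg hβ)
    · rw [Pool.Agent.Worm.lintegral_poisson]
      have h1 : ENNReal.ofReal (C * (42 ^ 3 * 1026) * 4) + 27 = (K : ENNReal) := by
        rw [hK, ENNReal.coe_add]
        rfl
      rw [h1]
      have h2 : 4 * (8 ^ 3 * 40 ^ 3) * ((4 * (8 ^ 3 * 40 ^ 3) * K)⁻¹ * K) = (1 : NNReal) := by
        rw [← mul_assoc, mul_right_comm]
        exact mul_inv_cancel₀ (by positivity)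
      have h3 : (4 * (8 ^ 3 * 40 ^ 3) * (((4 * (8 ^ 3 * 40 ^ 3) * K)⁻¹ : NNReal) * (K : ENNReal)) :
          ENNReal) = ((4 * (8 ^ 3 * 40 ^ 3) * ((4 * (8 ^ 3 * 40 ^ 3) * K)⁻¹ * K) : NNReal) :
            ENNReal) := by
        push_cast
        rfl
      rw [h3, h2]
      simp

end Pool.Agent.S19593
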